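import Pool.Agent.Helper49.SP.Fam

/-!
# The relevant elements form a `p`-group
-/

set_option autoImplicit false
set_option linter.unusedSectionVars false

namespace Pool.Agent.Helper49.SP

open Finset Pool.Agent.W559.Mg Pool.Agent.Helper46.AQ Pointwise

variable {k K : Type} [Field k] [Field K] [Algebra k K] [DecidableEq K] {G : Type} [Group G]
  [Fintype G] [DecidableEq G] {ρ : G →* (K ≃ₐ[k] K)} {B : Subalgebra k K} {Z : Finset K}
  {Γ : Type} [LinearOrderedCommGroupWithZero Γ] {v : Valuation K Γ}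

lemma gFF_one : FF ρ Z 1 = Z := if_pos rfl

lemma gmem_FF {h : G} (hh : h ≠ 1) {i : K} :
    i ∈ FF ρ Z h ↔ i ≠ 0 ∧ ∃ z ∈ Z, ρ h z - z = i := by
  unfold FF
  rw [if_neg hh, Finset.mem_erase, Finset.mem_image]
  rfl

lemma grho_mul (g h : G) (x : K) : ρ (g * h) x = ρ g (ρ h x) := by
  rw [map_mul]
  rfl

lemma grho_inv (g : G) (x : K) : ρ g⁻¹ (ρ g x) = x := by
  rw [← grho_mul, inv_mul_cancel, map_one]
  rfl

lemma grho_inv' (g : G) (x : K) : ρ g (ρ g⁻¹ x) = x := by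
  rw [← grho_mul, mul_inv_cancel, map_one]
  rfl

lemma gFF_n0 (hb : SB ρ B Z) (h : G) : ∀ i ∈ FF ρ Z h, i ≠ 0 := by
  by_cases hh : h = 1
  · subst hh
    rw [gFF_one]
    exact hb.fam.n0
  · intro i hi
    exact ((gmem_FF hh).1 hi).1

lemma gB_st (hb : SB ρ B Z) (g : G) : ∀ b ∈ B, ρ g b ∈ B := by
  intro b hbB
  rw [hb.gen] at hbB ⊢
  induction hbB using Algebra.adjoin_induction with
  | mem x hx => exact Algebra.subset_adjoin (hb.fam.st g x hx)
  | algebraMap r =>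
    rw [AlgEquiv.commutes]
    exact Subalgebra.algebraMap_mem _ r
  | add x y _ _ h1 h2 => rw [map_add]; exact Subalgebra.add_mem _ h1 h2
  | mul x y _ _ h1 h2 => rw [map_mul]; exact Subalgebra.mul_mem _ h1 h2

lemma gFF_mem (hb : SB ρ B Z) (h : G) : ∀ i ∈ FF ρ Z h, i ∈ B := by
  by_cases hh : h = 1
  · subst hh
    rw [gFF_one]
    exact hb.fam.mem
  · intro i hi
    obtain ⟨_, z, hz, rfl⟩ := (gmem_FF hh).1 hi
    exact B.sub_mem (hb.fam.mem _ (hb.fam.st h z hz)) (hb.fam.mem _ hz)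

/-- An element which fixes the generators is trivial. -/
lemma gfix (hb : SB ρ B Z) {h : G} (hh : ∀ z ∈ Z, ρ h z = z) : h = 1 := by
  refine hb.inj h ?_
  have h1 : ∀ b ∈ B, ρ h b = b := by
    intro b hbB
    rw [hb.gen] at hbB
    induction hbB using Algebra.adjoin_induction with
    | mem x hx => exact hh x hx
    | algebraMap r => rw [AlgEquiv.commutes]
    | add x y _ _ h1 h2 => rw [map_add, h1, h2]
    | mul x y _ _ h1 h2 => rw [map_mul, h1, h2]
  ext x
  obtain ⟨a, ha, b, hbB, _, rfl⟩ := hb.fr x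
  rw [map_div₀, h1 a ha, h1 b hbB]
  rfl

lemma gFF_ne (hb : SB ρ B Z) (h : G) : (FF ρ Z h).Nonempty := by
  by_cases hh : h = 1
  · subst hh
    rw [gFF_one]
    exact hb.fam.ne
  · by_contra hcon
    rw [Finset.not_nonempty_iff_eq_empty] at hcon
    refine hh (gfix hb fun z hz => ?_)
    by_contra h1
    have h2 : ρ h z - z ∈ FF ρ Z h := (gmem_FF hh).2 ⟨sub_ne_zero.2 h1, z, hz, rfl⟩
    rw [hcon] at h2
    exact absurd h2 (Finset.notMem_empty _)

lemma gdv_ne (hb : SB ρ B Z) (h : G) : dv ρ Z v h ≠ 0 := mx_ne_zero (gFF_ne hb h) (gFF_n0 hb h)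

lemma gdv_one (hb : SB ρ B Z) (hv : Pos B v) : dv ρ Z v 1 = 1 := by
  unfold dv
  rw [gFF_one]
  apply le_antisymm
  · exact mx_le fun a ha => hv a (hb.fam.mem a ha)
  · calc (1 : Γ) = v 1 := (map_one v).symm
      _ ≤ _ := le_mx hb.one

/-- The image of an element of a family. -/
lemma gFF_conj_mem (hb : SB ρ B Z) (g h : G) {i : K} (hi : i ∈ FF ρ Z h) :
    ρ g i ∈ FF ρ Z (g * h * g⁻¹) := by
  by_cases hh : h = 1
  · subst hh
    rw [mul_one, mul_inv_cancel, gFF_one]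
    rw [gFF_one] at hi
    exact hb.fam.st g i hi
  · have h1 : g * h * g⁻¹ ≠ 1 := by
      intro h2
      exact hh (conj_eq_one_iff.1 h2)
    obtain ⟨h2, z, hz, rfl⟩ := (gmem_FF hh).1 hi
    refine (gmem_FF h1).2 ⟨(map_ne_zero_iff _ (ρ g).injective).2 h2, ρ g z, hb.fam.st g z hz, ?_⟩
    rw [grho_mul, grho_inv, grho_mul, map_sub]

lemma gFF_conj_ex (hb : SB ρ B Z) (g h : G) {i : K} (hi : i ∈ FF ρ Z (g * h * g⁻¹)) :
    ∃ j ∈ FF ρ Z h, ρ g j = i := by
  refine ⟨ρ g⁻¹ i, ?_, grho_inv' g i⟩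
  have h1 := gFF_conj_mem hb g⁻¹ (g * h * g⁻¹) hi
  have h2 : g⁻¹ * (g * h * g⁻¹) * g⁻¹⁻¹ = h := by group
  rwa [h2] at h1

/-- Elements which are congruent to the identity on the generators. -/
lemma gmod (hb : SB ρ B Z) (hv : Pos B v) {g : G} (h : ∀ z ∈ Z, v (ρ g z - z) < 1) :
    ∀ b ∈ B, v (ρ g b - b) < 1 := by
  intro b hbB
  have hbB' := hbB
  rw [hb.gen] at hbB
  induction hbB using Algebra.adjoin_induction with
  | mem x hx => exact h x hx
  | algebraMap r =>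
    rw [AlgEquiv.commutes, sub_self, map_zero]
    exact zero_lt_one
  | add x y hx hy h1 h2 =>
    rw [← hb.gen] at hx hy
    have h3 : ρ g (x + y) - (x + y) = (ρ g x - x) + (ρ g y - y) := by rw [map_add]; ring
    rw [h3]
    exact lt_of_le_of_lt (v.map_add _ _) (max_lt (h1 hx) (h2 hy))
  | mul x y hx hy h1 h2 =>
    rw [← hb.gen] at hx hy
    have h3 : ρ g (x * y) - (x * y) = ρ g x * (ρ g y - y) + (ρ g x - x) * y := by
      rw [map_mul]; ring
    rw [h3]
    refine lt_of_le_of_lt (v.map_add _ _) (max_lt ?_ ?_)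
    · rw [map_mul]
      calc v (ρ g x) * v (ρ g y - y) ≤ 1 * v (ρ g y - y) :=
            mul_le_mul_left (hv _ (gB_st hb g x hx)) _
        _ = v (ρ g y - y) := one_mul _
        _ < 1 := h2 hy
    · rw [map_mul]
      calc v (ρ g x - x) * v y ≤ v (ρ g x - x) * 1 := mul_le_mul_right (hv _ hy) _
        _ = v (ρ g x - x) := mul_one _
        _ < 1 := h1 hx

/-- Elements which do not act trivially modulo the centre of `v`. -/
theorem dv_of_not (hb : SB ρ B Z) (hv : Pos B v) (h : G)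
    (hh : ∃ b ∈ B, ¬ v (ρ h b - b) < 1) : dv ρ Z v h = 1 := by
  obtain ⟨b, hbB, hb1⟩ := hh
  have h1 : h ≠ 1 := by
    rintro rfl
    refine hb1 ?_
    rw [map_one, AlgEquiv.one_apply, sub_self, map_zero]
    exact zero_lt_one
  apply le_antisymm
  · exact mx_le fun a ha => hv a (gFF_mem hb h a ha)
  · by_contra hcon
    rw [not_le] at hcon
    refine hb1 (gmod hb hv (fun z hz => ?_) b hbB)
    by_cases h2 : ρ h z - z = 0
    · rw [h2, map_zero]
      exact zero_lt_one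
    · exact lt_of_le_of_lt (le_mx ((gmem_FF h1).2 ⟨h2, z, hz, rfl⟩)) hcon

lemma grel_le (hb : SB ρ B Z) {c : G} (hc : Rel ρ Z v c) (h : G) :
    dv ρ Z v (c * h * c⁻¹) ≤ dv ρ Z v h := by
  refine mx_le fun i hi => ?_
  obtain ⟨j, hj, rfl⟩ := gFF_conj_ex hb c h hi
  have h1 : ρ c j = (ρ c j - j) + j := by ring
  rw [h1]
  refine (v.map_add _ _).trans (max_le ?_ (le_mx hj))
  exact (hc h j hj).le

lemma grel_one (hb : SB ρ B Z) : Rel ρ Z v 1 := by
  intro h i _
  rw [dlt_apply, map_one, AlgEquiv.one_apply, sub_self, map_zero]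
  exact zero_lt_iff.2 (gdv_ne hb h)

lemma grel_mul (hb : SB ρ B Z) {c c' : G} (hc : Rel ρ Z v c) (hc' : Rel ρ Z v c') :
    Rel ρ Z v (c * c') := by
  intro h i hi
  have h1 : dlt ρ (c * c') i = dlt ρ c (ρ c' i) + dlt ρ c' i := by
    rw [dlt_apply, dlt_apply, dlt_apply, grho_mul]
    ring
  rw [h1]
  refine lt_of_le_of_lt (v.map_add _ _) (max_lt ?_ (hc' h i hi))
  exact lt_of_lt_of_le (hc _ _ (gFF_conj_mem hb c' h hi)) (grel_le hb hc' h)

lemma grel_pow (hb : SB ρ B Z) {c : G} (hc : Rel ρ Z v c) (n : ℕ) : Rel ρ Z v (c ^ n) := by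
  induction n with
  | zero => rw [pow_zero]; exact grel_one hb
  | succ n ih => rw [pow_succ]; exact grel_mul hb ih hc

lemma grel_inv (hb : SB ρ B Z) {c : G} (hc : Rel ρ Z v c) : Rel ρ Z v c⁻¹ := by
  have h1 : c⁻¹ = c ^ (orderOf c - 1) := by
    have h2 : 0 < orderOf c := orderOf_pos c
    rw [inv_eq_iff_mul_eq_one, ← pow_succ', Nat.sub_add_cancel h2, pow_orderOf_eq_one]
  rw [h1]
  exact grel_pow hb hc _

lemma gval_nat {p : ℕ} [Fact p.Prime] [CharP k p] (hv : Pos B v) {l : ℕ} (hl : ¬ p ∣ l) :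
    v (l : K) = 1 := by
  have h0 : (l : k) ≠ 0 := by
    intro h
    exact hl ((CharP.cast_eq_zero_iff k p l).1 h)
  have h1 : (l : K) = algebraMap k K (l : k) := (map_natCast _ _).symm
  have h2 : v (algebraMap k K (l : k)) ≤ 1 := hv _ (B.algebraMap_mem _)
  have h3 : v (algebraMap k K (l : k)⁻¹) ≤ 1 := hv _ (B.algebraMap_mem _)
  rw [h1]
  refine le_antisymm h2 ?_
  have h4 : v (algebraMap k K (l : k)) * v (algebraMap k K (l : k)⁻¹) = 1 := by
    rw [← map_mul, ← map_mul, mul_inv_cancel₀ h0, map_one, map_one]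
  calc (1 : Γ) = v (algebraMap k K (l : k)) * v (algebraMap k K (l : k)⁻¹) := h4.symm
    _ ≤ v (algebraMap k K (l : k)) * 1 := mul_le_mul_right h3 _
    _ = _ := mul_one _

lemma gno_prime (hb : SB ρ B Z) {p : ℕ} [Fact p.Prime] [CharP k p] (hv : Pos B v) {c : G}
    (hc : Rel ρ Z v c) {l : ℕ} (hl : l.Prime) (hcl : orderOf c = l) : l = p := by
  by_contra hne
  have hp : p.Prime := Fact.out
  have hpl : ¬ p ∣ l := fun h => hne (((Nat.prime_dvd_prime_iff_eq hp hl).1 h).symm)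
  have hc1 : c ≠ 1 := by
    rintro rfl
    rw [orderOf_one] at hcl
    exact hl.one_lt.ne hcl
  obtain ⟨i, hi, hmax⟩ := exists_mx (v := v) (gFF_ne hb c)
  obtain ⟨hi0, z, hz, hzi⟩ := (gmem_FF hc1).1 hi
  have hvi : v i ≠ 0 := (Valuation.ne_zero_iff _).2 hi0
  have h1 : ∑ t ∈ range l, ρ (c ^ t) i = 0 := by
    have h2 : ∀ t ∈ range l, ρ (c ^ t) i = ρ (c ^ (t + 1)) z - ρ (c ^ t) z := by
      intro t _
      rw [← hzi, map_sub, pow_succ, grho_mul]
    rw [Finset.sum_congr rfl h2, Finset.sum_range_sub (fun t => ρ (c ^ t) z), ← hcl,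
      pow_orderOf_eq_one, pow_zero, sub_self]
  have h3 : v (∑ t ∈ range l, (ρ (c ^ t) i - i)) < v i := by
    refine v.map_sum_lt hvi fun t _ => ?_
    have h4 := grel_pow hb hc t c i hi
    rw [dlt_apply] at h4
    have h5 : dv ρ Z v c = v i := hmax
    rwa [h5] at h4
  rw [Finset.sum_sub_distrib, h1, zero_sub, Valuation.map_neg, Finset.sum_const, card_range,
    nsmul_eq_mul, map_mul, gval_nat (k := k) (p := p) hv hpl, one_mul] at h3
  exact lt_irrefl _ h3

/-- The relevant elements form a `p`-group which acts trivially modulo the centre of `v`. -/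
theorem rel_group (hb : SB ρ B Z) {p : ℕ} [Fact p.Prime] [CharP k p] (hv : Pos B v) :
    ∃ I : Subgroup G, (∀ c, c ∈ I ↔ Rel ρ Z v c) ∧ IsPGroup p I ∧
      ∀ c ∈ I, ∀ b ∈ B, v (ρ c b - b) < 1 := by
  let I : Subgroup G :=
    { carrier := {c | Rel ρ Z v c}
      mul_mem' := fun {a b} ha hb' => grel_mul hb ha hb'
      one_mem' := grel_one hb
      inv_mem' := fun {a} ha => grel_inv hb ha }
  refine ⟨I, fun c => Iff.rfl, ?_, ?_⟩
  · have hcard : Nat.card I ≠ 0 := Nat.card_pos.ne'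
    refine IsPGroup.of_card (n := (Nat.card I).primeFactorsList.length) ?_
    refine Nat.eq_prime_pow_of_unique_prime_dvd hcard ?_
    intro d hd hdvd
    have : Fact d.Prime := ⟨hd⟩
    obtain ⟨x, hx⟩ := exists_prime_orderOf_dvd_card' (G := I) d hdvd
    refine gno_prime hb hv (c := (x : G)) x.2 hd ?_
    rw [← hx, Subgroup.orderOf_coe]
  · intro c hc b hbB
    refine gmod hb hv (fun z hz => ?_) b hbB
    have h1 := hc 1 z (by rw [gFF_one]; exact hz)
    rwa [gdv_one hb hv] at h1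

end Pool.Agent.Helper49.SP
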