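import Pool.Agent.Helper49.SP.PC

/-!
# Package P: the local ring of homogeneous denominators
-/

set_option autoImplicit false
set_option linter.unusedSectionVars false

namespace Pool.Agent.Helper49.SP

open Finset Pool.Agent.W559.Mg Pool.Agent.Helper46.AQ Pool.Agent.Helper49.SP Pointwise

section P

variable {k K : Type} [Field k] [Field K] [Algebra k K] [DecidableEq K] {G : Type} [Group G]
  {ρ : G →* (K ≃ₐ[k] K)} {L : Type} [AddCommGroup L]
  {F Γ : Type} [Field F] [Algebra (ML K L) F] [FaithfulSMul (ML K L) F]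
  [LinearOrderedCommGroupWithZero Γ] {W : Valuation F Γ}

/-- Values in the local ring. -/
theorem LW_val (C : Subalgebra k (ML K L)) (hle : ∀ f ∈ C, W (algebraMap (ML K L) F f) ≤ 1)
    {f : ML K L} (hf : f ∈ LW C W) : W (algebraMap (ML K L) F f) ≤ 1 := by
  obtain ⟨d, a, h1, h2, h3⟩ := hf
  have h4 := hle _ h3
  rwa [map_mul, map_mul, h2, one_mul] at h4

/-- Inertia passes to the local ring. -/
theorem inr_LW (C : Subalgebra k (ML K L)) (hst : ∀ γ, ∀ f ∈ C, ga ρ L γ f ∈ C)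
    (hle : ∀ f ∈ C, W (algebraMap (ML K L) F f) ≤ 1) {τ : G} (hτ : Inr ρ C W τ) (f : ML K L)
    (hf : f ∈ LW C W) : ga ρ L τ f ∈ LW C W ∧ W (algebraMap (ML K L) F f) ≤ 1 ∧
      W (algebraMap (ML K L) F (ga ρ L τ f - f)) < 1 := by
  have hW1 := LW_val C hle hf
  obtain ⟨d, a, h1, h2, h3⟩ := hf
  have h4 : W (algebraMap (ML K L) F (ga ρ L τ (mo d a))) = 1 := val_tau h2 (hτ _ h1)
  refine ⟨⟨d, ρ τ a, ?_, ?_, ?_⟩, hW1, ?_⟩
  · rw [← ga_mo]
    exact hst τ _ h1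
  · rw [← ga_mo]
    exact h4
  · rw [← ga_mo, ← map_mul]
    exact hst τ _ h3
  · have h5 : ga ρ L τ (mo d a) * (ga ρ L τ f - f) =
        (ga ρ L τ (mo d a * f) - mo d a * f) - (ga ρ L τ (mo d a) - mo d a) * f := by
      rw [map_mul]
      ring
    have h6 : W (algebraMap (ML K L) F (ga ρ L τ (mo d a) * (ga ρ L τ f - f))) < 1 := by
      rw [h5, map_sub]
      refine lt_of_le_of_lt (W.map_sub _ _) (max_lt (hτ _ h3) ?_)
      rw [map_mul, map_mul]
      calc W (algebraMap (ML K L) F (ga ρ L τ (mo d a) - mo d a)) * W (algebraMap (ML K L) F f)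
          ≤ W (algebraMap (ML K L) F (ga ρ L τ (mo d a) - mo d a)) * 1 :=
            mul_le_mul_right hW1 _
        _ < 1 := by rw [mul_one]; exact hτ _ h1
    rwa [map_mul, map_mul, h4, one_mul] at h6

/-- The elements of `LW C W` with difference divisible by `X` in `LW C W` form an algebra which is
closed under the inverses of the homogeneous elements of value one. -/
theorem exists_DX (C : Subalgebra k (ML K L)) (hst : ∀ γ, ∀ f ∈ C, ga ρ L γ f ∈ C)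
    (hle : ∀ f ∈ C, W (algebraMap (ML K L) F f) ≤ 1) {τ : G} (hτ : Inr ρ C W τ)
    (X : ML K L) (hX : X ∈ LW C W) :
    ∃ Z : Subalgebra k (ML K L), (∀ f, f ∈ Z ↔ f ∈ LW C W ∧
        ∃ a ∈ LW C W, ga ρ L τ f - f = X * a) ∧
      ∀ (d : L) (a : K), a ≠ 0 → mo d a ∈ Z → W (algebraMap (ML K L) F (mo d a)) = 1 →
        mo (-d) a⁻¹ ∈ Z := by
  refine ⟨{ carrier := {f | f ∈ LW C W ∧ ∃ a ∈ LW C W, ga ρ L τ f - f = X * a}
            mul_mem' := ?_
            add_mem' := ?_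
            algebraMap_mem' := ?_ }, fun f => Iff.rfl, ?_⟩
  · rintro f g ⟨hf, a, ha, hfa⟩ ⟨hg, b, hb, hgb⟩
    refine ⟨(LW C W).mul_mem hf hg, a * ga ρ L τ g + f * b,
      (LW C W).add_mem ((LW C W).mul_mem ha (inr_LW C hst hle hτ g hg).1)
        ((LW C W).mul_mem hf hb), ?_⟩
    rw [map_mul]
    calc ga ρ L τ f * ga ρ L τ g - f * g = (ga ρ L τ f - f) * ga ρ L τ g +
          f * (ga ρ L τ g - g) := by ring
      _ = _ := by rw [hfa, hgb]; ring
  · rintro f g ⟨hf, a, ha, hfa⟩ ⟨hg, b, hb, hgb⟩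
    refine ⟨(LW C W).add_mem hf hg, a + b, (LW C W).add_mem ha hb, ?_⟩
    rw [map_add]
    calc ga ρ L τ f + ga ρ L τ g - (f + g) = (ga ρ L τ f - f) + (ga ρ L τ g - g) := by ring
      _ = _ := by rw [hfa, hgb]; ring
  · intro r
    exact ⟨(LW C W).algebraMap_mem r, 0, (LW C W).zero_mem, by
      rw [AlgHom.commutes, sub_self, mul_zero]⟩
  · rintro d a ha ⟨hy, b, hb, hyb⟩ hW1
    have hinv : (mo (-d) a⁻¹ : ML K L) ∈ LW C W := inv_mem_LW C d a ha hy hW1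
    refine ⟨hinv, -(b * mo (-d) a⁻¹ * ga ρ L τ (mo (-d) a⁻¹)),
      (LW C W).neg_mem ((LW C W).mul_mem ((LW C W).mul_mem hb hinv)
        (inr_LW C hst hle hτ _ hinv).1), ?_⟩
    have h1 : (mo d a : ML K L) * mo (-d) a⁻¹ = 1 := by
      rw [mo_mul, mul_inv_cancel₀ ha, add_neg_cancel, mo_one]
    have h2 : ga ρ L τ (mo d a) * ga ρ L τ (mo (-d) a⁻¹) = 1 := by
      rw [← map_mul, h1, map_one]
    calc ga ρ L τ (mo (-d) a⁻¹) - mo (-d) a⁻¹ =
          (mo d a * mo (-d) a⁻¹) * ga ρ L τ (mo (-d) a⁻¹) -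
            (ga ρ L τ (mo d a) * ga ρ L τ (mo (-d) a⁻¹)) * mo (-d) a⁻¹ := by
            rw [h1, h2, one_mul, one_mul]
      _ = -((ga ρ L τ (mo d a) - mo d a) * mo (-d) a⁻¹ * ga ρ L τ (mo (-d) a⁻¹)) := by ring
      _ = _ := by rw [hyb]; ring

/-- The criterion for the ideal of the fixed points to be principal. -/
theorem princ_of (C : Subalgebra k (ML K L)) (hst : ∀ γ, ∀ f ∈ C, ga ρ L γ f ∈ C)
    (hle : ∀ f ∈ C, W (algebraMap (ML K L) F f) ≤ 1) {τ : G} (hτ : Inr ρ C W τ)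
    {p : ℕ} (hτp : τ ^ p = 1) (hp : 0 < p) (X : ML K L)
    (hup : ∀ c ∈ C, ∃ a ∈ LW C W, ga ρ L τ c - c = X * a) (θ ω : ML K L) (hθ : θ ∈ LW C W)
    (hω : ω ∈ LW C W) (hω1 : W (algebraMap (ML K L) F ω) = 1)
    (hθω : ga ρ L τ θ - θ = X * ω) :
    ∃ b ∈ C, ∀ c ∈ C, ∃ s ∈ C, W (algebraMap (ML K L) F s) = 1 ∧ ∃ u ∈ C,
      s * (ga ρ L τ c - c) = u * (ga ρ L τ b - b) := by
  classical
  obtain ⟨d, a0, hu0C, hu0W, hu0θ⟩ := hθ
  obtain ⟨d1, a1, hw1, hw2, hw3⟩ := hω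
  set u0 : ML K L := mo d a0 with hu0def
  set w0 : ML K L := mo d1 a1 with hw0def
  have hval : ∀ (l : ℕ) (u : ML K L), u ∈ C → W (algebraMap (ML K L) F u) = 1 →
      ga ρ L (τ ^ l) u ∈ C ∧ W (algebraMap (ML K L) F (ga ρ L (τ ^ l) u)) = 1 := by
    intro l u hu hWu
    induction l with
    | zero =>
      rw [pow_zero, ga_one]
      exact ⟨hu, hWu⟩
    | succ l ih =>
      rw [pow_succ', ga_mul]
      exact ⟨hst _ _ ih.1, val_tau ih.2 (hτ _ ih.1)⟩
  have hu00 : u0 ≠ 0 := by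
    intro hz'
    rw [hz', map_zero, map_zero] at hu0W
    exact zero_ne_one hu0W
  let Nm : ML K L := ∏ l ∈ range p, ga ρ L (τ ^ l) u0
  let Nm' : ML K L := ∏ l ∈ (range p).erase 0, ga ρ L (τ ^ l) u0
  have hNm' : u0 * Nm' = Nm := by
    change _ = ∏ l ∈ range p, ga ρ L (τ ^ l) u0
    rw [← Finset.mul_prod_erase _ _ (Finset.mem_range.2 hp), pow_zero, ga_one]
  have hNmC : Nm ∈ C := C.prod_mem fun l _ => (hval l u0 hu0C hu0W).1
  have hNm'C : Nm' ∈ C := C.prod_mem fun l _ => (hval l u0 hu0C hu0W).1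
  have hNmW : W (algebraMap (ML K L) F Nm) = 1 := by
    change W (algebraMap (ML K L) F (∏ l ∈ range p, ga ρ L (τ ^ l) u0)) = 1
    rw [map_prod, map_prod]
    exact Finset.prod_eq_one fun l _ => (hval l u0 hu0C hu0W).2
  have hNmfix : ga ρ L τ Nm = Nm := by
    change ga ρ L τ (∏ l ∈ range p, ga ρ L (τ ^ l) u0) = ∏ l ∈ range p, ga ρ L (τ ^ l) u0
    rw [map_prod]
    have h1 : ∀ l, ga ρ L τ (ga ρ L (τ ^ l) u0) = ga ρ L (τ ^ (l + 1)) u0 := fun l => by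
      rw [pow_succ', ga_mul]
    rw [Finset.prod_congr rfl fun l _ => h1 l]
    have h2 := Finset.prod_range_succ' (fun l => ga ρ L (τ ^ l) u0) p
    have h3 := Finset.prod_range_succ (fun l => ga ρ L (τ ^ l) u0) p
    rw [h3, hτp, pow_zero, ga_one] at h2
    have hinj : ∀ x y : ML K L, x * u0 = y * u0 → x = y := by
      intro x y hxy
      have ha0 : a0 ≠ 0 := by
        rintro rfl
        apply hu00
        rw [hu0def]
        exact mo_zero d
      have h4 : u0 * mo (-d) a0⁻¹ = 1 := by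
        rw [hu0def, mo_mul, mul_inv_cancel₀ ha0, add_neg_cancel, mo_one]
      calc x = x * u0 * mo (-d) a0⁻¹ := by rw [mul_assoc, h4, mul_one]
        _ = y * u0 * mo (-d) a0⁻¹ := by rw [hxy]
        _ = y := by rw [mul_assoc, h4, mul_one]
    exact (hinj _ _ h2).symm
  refine ⟨u0 * θ * Nm', C.mul_mem hu0θ hNm'C, fun c hc => ?_⟩
  have hbeq : u0 * θ * Nm' = θ * Nm := by
    rw [← hNm']
    ring
  have hbd : ga ρ L τ (u0 * θ * Nm') - u0 * θ * Nm' = Nm * (X * ω) := by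
    rw [hbeq, map_mul, hNmfix, ← hθω]
    ring
  obtain ⟨a, ha, hca⟩ := hup c hc
  obtain ⟨d2, a2, ht1, ht2, ht3⟩ := ha
  refine ⟨mo d2 a2 * (w0 * ω) * Nm, C.mul_mem (C.mul_mem ht1 hw3) hNmC, ?_,
    mo d2 a2 * a * w0, C.mul_mem ht3 hw1, ?_⟩
  · simp only [map_mul]
    rw [ht2, hw2, hω1, hNmW, one_mul, one_mul, one_mul]
  · rw [hbd, hca]
    ring

end P

end Pool.Agent.Helper49.SP
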