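import Pool.Agent.Helper49.SP.PD
import Pool.Agent.Helper49.SP.PE
import Pool.Agent.Helper49.SP.PBs
import Pool.Agent.Helper49.SP.PC
import Pool.Agent.Helper49.SP.PS1
import Pool.Agent.Helper49.SP.PS2
import Pool.Agent.Helper49.SP.PP
import Pool.Agent.Helper49.SP.PV
import Pool.Agent.Helper49.SP.PG
import Pool.Agent.Helper49.SP.PM

/-!
# Weights of the families
-/

set_option autoImplicit false
set_option linter.unusedSectionVars false

namespace Pool.Agent.Helper49.SP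

open Finset Pool.Agent.W559.Mg Pool.Agent.Helper46.AQ Pointwise

section bd

variable {ι : Type} [Fintype ι] {c : ℕ}

/-- Combinations of the basic vectors with bounded coefficients. -/
def Bd (c : ℕ) (N : ℕ → ι → ℕ) (r : ℕ) (d : ι → ℤ) : Prop :=
  ∃ q : Fin c → ℤ, (∀ j, |q j| ≤ r) ∧ d = ∑ j, q j • vz (N j)

variable {N : ℕ → ι → ℕ}

lemma Bd.zero (r : ℕ) : Bd c N r 0 := ⟨0, fun j => by simp, by simp⟩

lemma Bd.basic (j : Fin c) : Bd c N 1 (vz (N j)) := by
  refine ⟨Pi.single j 1, fun i => ?_, ?_⟩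
  · by_cases h : i = j
    · subst h; simp
    · simp [h]
  · rw [Finset.sum_eq_single j]
    · simp
    · intro i _ hi
      simp [hi]
    · intro h
      exact absurd (Finset.mem_univ _) h

lemma Bd.add {r s : ℕ} {d d' : ι → ℤ} (h : Bd c N r d) (h' : Bd c N s d') :
    Bd c N (r + s) (d + d') := by
  obtain ⟨q, hq, rfl⟩ := h
  obtain ⟨q', hq', rfl⟩ := h'
  refine ⟨q + q', fun j => ?_, ?_⟩
  · rw [Pi.add_apply]
    push_cast
    exact (abs_add_le _ _).trans (add_le_add (hq j) (hq' j))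
  · rw [← Finset.sum_add_distrib]
    exact Finset.sum_congr rfl fun j _ => (add_smul _ _ _).symm

lemma Bd.neg {r : ℕ} {d : ι → ℤ} (h : Bd c N r d) : Bd c N r (-d) := by
  obtain ⟨q, hq, rfl⟩ := h
  refine ⟨-q, fun j => ?_, ?_⟩
  · rw [Pi.neg_apply, abs_neg]
    exact hq j
  · rw [← Finset.sum_neg_distrib]
    exact Finset.sum_congr rfl fun j _ => by rw [Pi.neg_apply, neg_smul]

lemma Bd.sub {r s : ℕ} {d d' : ι → ℤ} (h : Bd c N r d) (h' : Bd c N s d') :
    Bd c N (r + s) (d - d') := by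
  rw [sub_eq_add_neg]
  exact h.add h'.neg

lemma Bd.mono {r s : ℕ} {d : ι → ℤ} (h : Bd c N r d) (hrs : r ≤ s) : Bd c N s d := by
  obtain ⟨q, hq, rfl⟩ := h
  exact ⟨q, fun j => (hq j).trans (by exact_mod_cast hrs), rfl⟩

lemma Bd.nsmul {r : ℕ} {d : ι → ℤ} (h : Bd c N r d) (n : ℕ) : Bd c N (n * r) (n • d) := by
  induction n with
  | zero => rw [zero_nsmul, zero_mul]; exact Bd.zero 0
  | succ n ih =>
    rw [succ_nsmul, Nat.succ_mul]
    exact ih.add h

lemma Bd.sum {r : ℕ} {J : Type} (s : Finset J) {d : J → ι → ℤ} (h : ∀ j, Bd c N r (d j)) :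
    Bd c N (s.card * r) (∑ j ∈ s, d j) := by
  classical
  induction s using Finset.induction_on with
  | empty => rw [Finset.sum_empty, Finset.card_empty, zero_mul]; exact Bd.zero 0
  | insert a s ha ih =>
    rw [Finset.sum_insert ha, Finset.card_insert_of_notMem ha, Nat.succ_mul, add_comm (s.card * r)]
    exact (h a).add ih

end bd

section ctx

variable {k K : Type} [Field k] [Field K] [Algebra k K] [DecidableEq K] {G : Type} [Group G]
  [Fintype G] [DecidableEq G] {ρ : G →* (K ≃ₐ[k] K)} {B : Subalgebra k K} {Z : Finset K} {p : ℕ}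
  {ι : Type} [Fintype ι] [DecidableEq ι] {A B' : ι → Finset K} {Ex : ι → ι → Prop}
  {N : ℕ → ι → ℕ}

/-- The vector of a family. -/
def Nv (N : ℕ → ι → ℕ) (ps : Lam G p ≃ Fin (Fintype.card (Lam G p))) (l : Lam G p) : ι → ℤ :=
  vz (N (ps l))

/-- The vector of the differences. -/
def wN (N : ℕ → ι → ℕ) (ps : Lam G p ≃ Fin (Fintype.card (Lam G p))) (h : G) : ι → ℤ :=
  if h = 1 then 0 else Nv N ps (Sum.inl h)

/-- The vector of the common denominator. -/
def SN (N : ℕ → ι → ℕ) (ps : Lam G p ≃ Fin (Fintype.card (Lam G p))) : ι → ℤ :=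
  ∑ h : G, Nv N ps (Sum.inl h)

/-- The relative vector of the differences of order `u`. -/
def wM (N : ℕ → ι → ℕ) (ps : Lam G p ≃ Fin (Fintype.card (Lam G p))) (c : G) (u : ℕ) : ι → ℤ :=
  if h : c ≠ 1 ∧ 1 ≤ u ∧ u < p then
    Nv N ps (Sum.inr (⟨c, h.1⟩, ⟨u - 1, by omega⟩)) - u • SN N ps
  else 0

/-- The bound for the coefficients. -/
def rB (G : Type) [Fintype G] (p : ℕ) : ℕ :=
  10 * (1 + p * Fintype.card G) + 10 * Fintype.card G + 10

variable {Γ : Type} [LinearOrderedCommGroupWithZero Γ]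

/-- The hypotheses at a valuation. -/
structure Cx (ρ : G →* (K ≃ₐ[k] K)) (B : Subalgebra k K) (Z : Finset K) (p : ℕ)
    (A B' : ι → Finset K) (Ex : ι → ι → Prop) (N : ℕ → ι → ℕ)
    (ps : Lam G p ≃ Fin (Fintype.card (Lam G p))) (v : Valuation K Γ) : Prop where
  sb : SB ρ B Z
  sys : LSys ρ B (Fl ρ Z p) A B' Ex N
  cmp : ∀ q : Fin (Fintype.card (Lam G p)) → ℤ, (∀ j, |q j| ≤ (rB G p : ℕ)) →
    Cmp Ex (∑ j, q j • vz (N j))
  pos : Pos B v
  hps : ∀ l, mx v (Fl ρ Z p l) = mz (al A B' v) (vz (N (ps l)))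

variable {ps : Lam G p ≃ Fin (Fintype.card (Lam G p))} {v : Valuation K Γ}

lemma Nv_nonneg (l : Lam G p) (i : ι) : 0 ≤ Nv N ps l i := vz_nonneg _ i

lemma Nv_bd (l : Lam G p) : Bd (Fintype.card (Lam G p)) N 1 (Nv N ps l) := Bd.basic (ps l)

lemma wN_bd (h : G) : Bd (Fintype.card (Lam G p)) N 1 (wN N ps h) := by
  unfold wN
  split_ifs
  · exact Bd.zero 1
  · exact Nv_bd _

lemma SN_bd : Bd (Fintype.card (Lam G p)) N (Fintype.card G) (SN N ps) := by
  have h := Bd.sum (c := Fintype.card (Lam G p)) (N := N) (r := 1) (univ : Finset G)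
    (d := fun h => Nv N ps (Sum.inl h)) fun h => Nv_bd _
  rwa [mul_one, Finset.card_univ] at h

lemma wM_bd (c : G) (u : ℕ) :
    Bd (Fintype.card (Lam G p)) N (1 + p * Fintype.card G) (wM N ps c u) := by
  unfold wM
  split_ifs with h
  · refine (Nv_bd _).sub (((SN_bd (ps := ps)).nsmul u).mono ?_)
    exact Nat.mul_le_mul_right _ h.2.2.le
  · exact Bd.zero _

lemma wM_zero (c : G) : wM N ps c 0 = 0 := by
  unfold wM
  rw [dif_neg]
  rintro ⟨-, h, -⟩
  omega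

lemma wN_one : wN N ps (1 : G) = 0 := if_pos rfl

variable (hx : Cx ρ B Z p A B' Ex N ps v)

include hx

lemma Cx.al_ne (i : ι) : al A B' v i ≠ 0 := hx.sys.pc.al_ne v i

lemma Cx.al_le (i : ι) : al A B' v i ≤ 1 := hx.sys.pc.le1 _ v hx.pos i

lemma Cx.mx_Nv (l : Lam G p) : mz (al A B' v) (Nv N ps l) = mx v (Fl ρ Z p l) := (hx.hps l).symm

lemma Cx.dv_one : dv ρ Z v 1 = 1 := by
  unfold dv FF
  rw [if_pos rfl]
  refine le_antisymm (mx_le fun a ha => hx.pos _ (hx.sb.fam.mem a ha)) ?_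
  calc (1 : Γ) = v 1 := (map_one v).symm
    _ ≤ mx v Z := le_mx hx.sb.one

lemma Cx.mz_inl (h : G) : mz (al A B' v) (Nv N ps (Sum.inl h)) = dv ρ Z v h := hx.mx_Nv _

lemma Cx.mz_wN (h : G) : mz (al A B' v) (wN N ps h) = dv ρ Z v h := by
  unfold wN
  split_ifs with h1
  · rw [mz_zero, h1, hx.dv_one]
  · exact hx.mz_inl h

lemma Cx.mz_SN : mz (al A B' v) (SN N ps) = DV ρ Z v := by
  unfold SN DV
  rw [mz_sum hx.al_ne]
  exact Finset.prod_congr rfl fun h _ => hx.mz_inl h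

lemma Cx.DV_ne : DV ρ Z v ≠ 0 := by
  rw [← hx.mz_SN]
  exact mz_ne_zero hx.al_ne _

lemma Cx.dv_ne (h : G) : dv ρ Z v h ≠ 0 := by
  rw [← hx.mz_inl (N := N) (ps := ps)]
  exact mz_ne_zero hx.al_ne _

lemma Cx.mz_wM {c : G} (hc : c ≠ 1) {u : ℕ} (hu : u < p) :
    mz (al A B' v) (wM N ps c u) = nv ρ Z v c u := by
  by_cases h0 : u = 0
  · subst h0
    rw [wM_zero, mz_zero, nv_zero]
  · unfold wM
    rw [dif_pos ⟨hc, by omega, hu⟩, mz_sub hx.al_ne, mz_nsmul, hx.mz_SN, hx.mx_Nv]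
    unfold nv
    congr 2
    change nn ρ Z c (u - 1 + 1) = nn ρ Z c u
    congr 1
    omega

/-- Comparison of vectors by their values. -/
lemma Cx.le_of {d d' : ι → ℤ} {r s : ℕ} (hd : Bd (Fintype.card (Lam G p)) N r d)
    (hd' : Bd (Fintype.card (Lam G p)) N s d') (hrs : r + s ≤ rB G p)
    (h : mz (al A B' v) d' ≤ mz (al A B' v) d) (i : ι) (hi : al A B' v i < 1) : d i ≤ d' i := by
  obtain ⟨q, hq, hqd⟩ := (hd'.sub hd).mono (by omega : s + r ≤ rB G p)
  have h1 : mz (al A B' v) (d' - d) ≤ 1 := by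
    rw [mz_sub hx.al_ne, div_le_one₀ (zero_lt_iff.2 (mz_ne_zero hx.al_ne _))]
    exact h
  have h2 := cmpJ hx.sys (d := d' - d) (by rw [hqd]; exact hx.cmp q hq) hx.pos h1 i hi
  rw [Pi.sub_apply] at h2
  omega

lemma Cx.eq_of {d d' : ι → ℤ} {r s : ℕ} (hd : Bd (Fintype.card (Lam G p)) N r d)
    (hd' : Bd (Fintype.card (Lam G p)) N s d') (hrs : r + s ≤ rB G p)
    (h : mz (al A B' v) d' = mz (al A B' v) d) (i : ι) (hi : al A B' v i < 1) : d i = d' i :=
  le_antisymm (hx.le_of hd hd' hrs h.le i hi) (hx.le_of hd' hd (by omega) h.ge i hi)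

end ctx

end Pool.Agent.Helper49.SP
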