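import Pool.Agent.Helper49.SP.As5

/-!
# The ideal of the fixed points
-/

set_option autoImplicit false
set_option linter.unusedSectionVars false

namespace Pool.Agent.Helper49.SP

open Finset Pool.Agent.W559.Mg Pool.Agent.Helper46.AQ Pointwise

variable {k K : Type} [Field k] [Field K] [Algebra k K] [DecidableEq K] {G : Type} [Group G]
  [Fintype G] [DecidableEq G] {ρ : G →* (K ≃ₐ[k] K)} {B : Subalgebra k K} {Z : Finset K} {p : ℕ}
  {ι : Type} [Fintype ι] [DecidableEq ι] {A B' : ι → Finset K} {Ex : ι → ι → Prop}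
  {N : ℕ → ι → ℕ} {ps : Lam G p ≃ Fin (Fintype.card (Lam G p))}
  {L : Type} [AddCommGroup L] {dg : L ≃+ (ι → ℤ)}
  {F Γ : Type} [Field F] [Algebra (ML K L) F] [FaithfulSMul (ML K L) F]
  [LinearOrderedCommGroupWithZero Γ] {W : Valuation F Γ}

section op

/-- The `p`-th power of the difference operator of an element of order `p`. -/
lemma dlt_pow_p [CharP k p] [Fact p.Prime] {c : G} (hc : c ^ p = 1) :
    ((dlt ρ c) ^ p : Module.End k K) = 0 := by
  have hchar : CharP (Module.End k K) p :=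
    charP_of_injective_algebraMap (algebraMap k (Module.End k K)).injective p
  have h1 : ∀ (m : ℕ), ((ρ c : K ≃ₐ[k] K).toLinearMap ^ m : Module.End k K) =
      (ρ (c ^ m) : K ≃ₐ[k] K).toLinearMap := by
    intro m
    induction m with
    | zero =>
      rw [pow_zero, pow_zero, map_one]
      rfl
    | succ m ih =>
      rw [pow_succ, ih, pow_succ, map_mul]
      rfl
  unfold dlt
  rw [sub_pow_char_of_commute _ (Commute.one_right _), one_pow, h1, hc, map_one]
  exact sub_self _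

lemma ρ_dlt_pow (c : G) (j u : ℕ) (x : K) :
    ρ (c ^ j) (((dlt ρ c) ^ u : Module.End k K) x) =
      ((dlt ρ c) ^ u : Module.End k K) (ρ (c ^ j) x) := by
  have h1 : ∀ x : K, ρ (c ^ j) (dlt ρ c x) = dlt ρ c (ρ (c ^ j) x) := by
    intro x
    rw [dlt_apply, dlt_apply, map_sub, ← AlgEquiv.mul_apply, ← AlgEquiv.mul_apply, ← map_mul,
      ← map_mul, ← pow_succ, ← pow_succ']
  induction u with
  | zero => rfl
  | succ u ih =>
    rw [pow_succ', Module.End.mul_apply, Module.End.mul_apply, h1, ih]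

lemma dlt_pow (c : G) (s : ℕ) (x : K) :
    dlt ρ (c ^ s) x = ∑ j ∈ range s, ρ (c ^ j) (dlt ρ c x) := by
  induction s with
  | zero =>
    rw [pow_zero, Finset.sum_range_zero, dlt_apply, map_one, AlgEquiv.one_apply, sub_self]
  | succ s ih =>
    rw [Finset.sum_range_succ, ← ih, dlt_apply, dlt_apply, dlt_apply, map_sub, pow_succ, map_mul,
      AlgEquiv.mul_apply]
    ring

end op

section main

variable {D : Tp A B'} (hx : Cx ρ B Z p A B' Ex N ps (vK k L W))
  {Q : Ideal (CC dg hx.sys.pc D)} (hC : Cen dg hx.sys.pc D Q W)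

include hC

/-- The rescaled operators are in the local ring of the chart. -/
lemma op_C {c h : G} {u : ℕ} (hu : u < p) (hcu : c = 1 → u = 0) {z : K} (hz : z ∈ Z) :
    mo (dg.symm (wt N ps c h u)) (op ρ c h u z) ∈ LW (CC dg hx.sys.pc D) W := by
  have hadm := adm_C hx hC
  rw [op_apply]
  rcases dl'_mem (ρ := ρ) h hz with h1 | h1
  · by_cases hc1 : c = 1
    · subst hc1
      rw [hcu rfl, pow_zero]
      refine hadm.adj (fl_C hx hC (Sum.inl h) _ h1) fun j hj => ?_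
      unfold wt
      rw [wM_zero, add_zero, hx.wN_eq h j hj]
    · refine hadm.adj (key_C hx hC c hc1 u hu h _ h1) fun j hj => ?_
      unfold wt
      rw [Pi.add_apply, Pi.add_apply, hx.wN_eq h j hj]
  · rw [h1, map_zero, mo_zero]
    exact Subalgebra.zero_mem _

variable {I H : Subgroup G} {R : Subalgebra k (ML K L)}
  (hR : LM ρ B Z p N ps dg {i | al A B' (vK k L W) i < 1} W I H R)
  (hI : ∀ c, c ∈ I ↔ Rel ρ Z (vK k L W) c)
  (hH : ∀ h, h ∈ H ↔ ∀ b ∈ B, vK k L W (ρ h b - b) < 1)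

include hR hI hH

/-- The ideal of the fixed points is principal. -/
theorem exists_princ [IsDomain (ML K L)] [Fact p.Prime] [CharP k p] (hIp : ∀ c ∈ I, c ^ p = 1)
    (hIg : ∀ c ∈ I, c ≠ 1 → ∀ τ ∈ I, ∃ s : ℕ, c ^ s = τ) (hne : ∃ c ∈ I, c ≠ 1)
    (hinr : ∀ c ∈ I, Inr ρ (CC dg hx.sys.pc D) W c)
    (hst : ∀ γ, ∀ f ∈ CC dg hx.sys.pc D, ga ρ L γ f ∈ CC dg hx.sys.pc D) :
    ∃ τ ∈ I, τ ≠ 1 ∧ ∃ b ∈ CC dg hx.sys.pc D, ∀ c ∈ CC dg hx.sys.pc D,
      ∃ s ∈ CC dg hx.sys.pc D, W (algebraMap (ML K L) F s) = 1 ∧ ∃ u ∈ CC dg hx.sys.pc D,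
        s * (ga ρ L τ c - c) = u * (ga ρ L τ b - b) := by
  classical
  have hpp : p.Prime := Fact.out
  set C := CC dg hx.sys.pc D with hCdef
  have hadm := adm_C hx hC
  have hmo := mov_C hx hC
  obtain ⟨τ, hτI, u0, hu0, hmax, h0, i0, hi0, hval⟩ := exists_ext (v := vK k L W) hx.sb
    {c | c ∈ I ∧ c ≠ 1} (by
      obtain ⟨c, hc, hc1⟩ := hne
      exact ⟨c, hc, hc1⟩) (fun c hc => hc.2) p hpp.two_le
  obtain ⟨hτI, hτ1⟩ := hτI
  have hrel : ∀ c ∈ I, Rel ρ Z (vK k L W) c := fun c hc => (hI c).1 hc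
  refine ⟨τ, hτI, hτ1, ?_⟩
  set E0 : ι → ℤ := wM N ps τ (u0 + 1) - wM N ps τ u0 with hE0
  have hE0bd : Bd (Fintype.card (Lam G p)) N
      ((1 + p * Fintype.card G) + (1 + p * Fintype.card G)) E0 := (wM_bd τ _).sub (wM_bd τ _)
  have hE0mz : mz (al A B' (vK k L W)) E0 =
      nv ρ Z (vK k L W) τ (u0 + 1) / nv ρ Z (vK k L W) τ u0 := by
    rw [hE0, mz_sub hx.al_ne, hx.mz_wM hτ1 hu0, hx.mz_wM hτ1 (by omega)]
  have hnv0 : nv ρ Z (vK k L W) τ u0 ≠ 0 := nv_ne hx.sb hτ1 u0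
  -- the maximality
  have hcmp : ∀ c ∈ I, c ≠ 1 → ∀ u', u' + 1 < p → ∀ j, al A B' (vK k L W) j < 1 →
      wM N ps c u' j + E0 j ≤ wM N ps c (u' + 1) j := by
    intro c hc hc1 u' hu' j hj
    refine hx.le_of (d := wM N ps c u' + E0) ((wM_bd c u').add hE0bd) (wM_bd c (u' + 1))
      (by unfold rB; omega) ?_ j hj
    rw [mz_add hx.al_ne, hE0mz, hx.mz_wM hc1 hu', hx.mz_wM hc1 (by omega), ← mul_div_assoc,
      le_div_iff₀ (zero_lt_iff.2 hnv0), mul_comm (nv ρ Z (vK k L W) c u')]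
    exact hmax c ⟨hc, hc1⟩ u' hu'
  have hE0J : ∀ j, al A B' (vK k L W) j < 1 → 0 ≤ E0 j := by
    intro j hj
    have h1 := hx.wM_mono hτ1 (hrel τ hτI) hu0 j hj
    rw [hE0, Pi.sub_apply]
    omega
  set X : ML K L := xz K dg E0 with hXdef
  have hX : X ∈ LW C W := hadm E0 hE0J
  -- reduction to an adjusted membership
  have hdiff : ∀ (d : ι → ℤ) (a : K), mo (dg.symm (d + E0)) (dlt ρ τ a) ∈ LW C W →
      ∃ b ∈ LW C W, ga ρ L τ (mo (dg.symm d) a) - mo (dg.symm d) a = X * b := by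
    intro d a h
    refine ⟨_, h, ?_⟩
    rw [ga_mo, ← mo_sub, ← dlt_apply, hXdef, ← mo_xz]
  have hkτ := key_C hx hC τ hτ1
  have hfirst : ∀ h, ∀ i ∈ FF ρ Z h, mo (dg.symm (wN N ps h + E0)) (dlt ρ τ i) ∈ LW C W := by
    intro h i hi
    have h1 := hkτ 1 hpp.one_lt h i hi
    rw [pow_one] at h1
    refine hadm.adj h1 fun j hj => ?_
    have h2 := hcmp τ hτI hτ1 0 (by have := hpp.two_le; omega) j hj
    rw [wM_zero, Pi.zero_apply, zero_add, zero_add] at h2
    rw [Pi.add_apply, Pi.add_apply, hx.wN_eq h j hj]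
    omega
  obtain ⟨S, hS1, hS2⟩ := exists_DX (W := W) C hst hC.le (hinr τ hτI) X hX
  obtain ⟨R', -, -, hle, huniv⟩ := exists_R hx hC hR hI hH hpp.pos
  have hxS : ∀ i, xz K dg (Pi.single i 1) ∈ S := fun i => (hS1 _).2
    ⟨le_LW _ _ (xz_mem_CC hx.sys.pc i), 0, Subalgebra.zero_mem _, by
      rw [ga_xz, sub_self, mul_zero]⟩
  have hZS : ∀ z ∈ Z, mo (0 : L) z ∈ S := by
    intro z hz
    refine (hS1 _).2 ⟨le_LW _ _ ?_, ?_⟩
    · rw [mo_mem_CC]
      intro Γ _ v hv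
      rw [map_zero, nm_zero]
      exact hv.1 _ (hx.sb.fam.mem z hz)
    · have hz1 : z ∈ FF ρ Z (1 : G) := by
        unfold FF
        rw [if_pos rfl]
        exact hz
      have h1 := hfirst 1 z hz1
      have h2 := hdiff 0 z (by rwa [wN_one] at h1)
      rwa [map_zero] at h2
  have hBS : ∀ b ∈ B, mo (0 : L) b ∈ S := by
    have h1 : B ≤ S.comap (zr k K L) := by
      rw [hx.sb.gen]
      exact Algebra.adjoin_le fun z hz => hZS z hz
    exact fun b hb => h1 hb
  have hR'S : R' ≤ S := by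
    refine huniv S (fun d a ha h1 h2 => hS2 d a ha h1 h2) hBS hxS ?_
    intro c hc h u hu hcu z hz
    refine (hS1 _).2 ⟨op_C hx hC hu hcu hz, hdiff _ _ ?_⟩
    rw [op_apply]
    rcases dl'_mem (ρ := ρ) h hz with h1 | h1
    · by_cases hc1 : c = 1
      · subst hc1
        rw [hcu rfl, pow_zero]
        have h2 := hfirst h _ h1
        unfold wt
        rw [wM_zero, add_zero]
        exact h2
      · obtain ⟨s, rfl⟩ := hIg c hc hc1 τ hτI
        rw [dlt_pow]
        have h3 : ∀ j ∈ range s, mo (dg.symm (wt N ps c h u + E0))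
            (ρ (c ^ j) (dlt ρ c (((dlt ρ c) ^ u : Module.End k K) (dl' ρ h z)))) ∈ LW C W := by
          intro j _
          rw [← Module.End.mul_apply, ← pow_succ', ρ_dlt_pow]
          by_cases hup : u + 1 < p
          · have h4 : (ρ (c ^ j) (dl' ρ h z) : K) ∈ FF ρ Z (c ^ j * h * (c ^ j)⁻¹) := by
              rw [FF_conj hx.sb]
              exact Finset.mem_image_of_mem (ρ (c ^ j)) h1
            refine hadm.adj (key_C hx hC c hc1 (u + 1) hup _ _ h4) fun l hl => ?_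
            have h5 := hcmp c hc hc1 u hup l hl
            have h6 := hx.wN_conj (hrel _ (I.pow_mem hc j)) h l hl
            have h7 := hx.wN_eq (c ^ j * h * (c ^ j)⁻¹) l hl
            unfold wt
            rw [Pi.add_apply, Pi.add_apply, Pi.add_apply, h7, h6]
            omega
          · have h4 : u + 1 = p := by omega
            rw [h4, dlt_pow_p (hIp c hc), LinearMap.zero_apply, mo_zero]
            exact Subalgebra.zero_mem _
        have h4 : ∑ j ∈ range s, ρ (c ^ j)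
            (dlt ρ c (((dlt ρ c) ^ u : Module.End k K) (dl' ρ h z))) ∈
            cfA (LW C W) (dg.symm (wt N ps c h u + E0)) := Submodule.sum_mem _ fun j hj => h3 j hj
        exact h4
    · rw [h1, map_zero, map_zero, mo_zero]
      exact Subalgebra.zero_mem _
  -- the generator
  have hmul : Nv N ps (Sum.inl h0) + wM N ps τ u0 + E0 =
      Nv N ps (Sum.inl h0) + wM N ps τ (u0 + 1) := by
    rw [hE0]
    abel
  refine princ_of (W := W) C hst hC.le (hinr τ hτI) (hIp τ hτI) hpp.pos X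
    (fun c hc => ((hS1 c).1 (hR'S (hle hc))).2)
    (mo (dg.symm (Nv N ps (Sum.inl h0) + wM N ps τ u0)) (((dlt ρ τ) ^ u0 : Module.End k K) i0))
    (mo (dg.symm (Nv N ps (Sum.inl h0) + wM N ps τ (u0 + 1)))
      (((dlt ρ τ) ^ (u0 + 1) : Module.End k K) i0)) (hkτ u0 (by omega) h0 i0 hi0)
    (hkτ (u0 + 1) hu0 h0 i0 hi0) ?_ ?_
  · rw [hmo.symm, mz_add hx.al_ne, hx.mz_inl, hx.mz_wM hτ1 hu0, hval]
    exact div_self (mul_ne_zero (hx.dv_ne h0) (nv_ne hx.sb hτ1 _))
  · rw [ga_mo, ← mo_sub, ← dlt_apply, mo_xz (dg := dg) _ E0, hmul, pow_succ',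
      Module.End.mul_apply]

end main

end Pool.Agent.Helper49.SP
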