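import Pool.Agent.Helper49.SP.As6

/-!
# Smoothness of the invariants of the charts
-/

set_option autoImplicit false
set_option linter.unusedSectionVars false

namespace Pool.Agent.Helper49.SP

open Finset Pool.Agent.W559.Mg Pool.Agent.Helper46.AQ Pointwise

variable {k K : Type} [Field k] [Field K] [Algebra k K] [DecidableEq K] {G : Type} [Group G]
  [Fintype G] [DecidableEq G] {ρ : G →* (K ≃ₐ[k] K)} {B : Subalgebra k K} {Z : Finset K} {p : ℕ}
  {ι : Type} [Fintype ι] [DecidableEq ι] {A B' : ι → Finset K} {Ex : ι → ι → Prop}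
  {N : ℕ → ι → ℕ} {L : Type} [AddCommGroup L] {dg : L ≃+ (ι → ℤ)}

section act

include ρ in
lemma ga_mem_CC' (hst : ∀ γ, ∀ b ∈ B, ρ γ b ∈ B) (hPC : PC ρ B A B') {D : Tp A B'} (γ : G)
    {f : ML K L} (hf : f ∈ CC dg hPC D) : ga ρ L γ f ∈ CC dg hPC D := by
  intro Γ _ v hv m
  set v' := v.comap ((ρ γ : K ≃ₐ[k] K) : K →+* K) with hv'
  have hal : al A B' v' = al A B' v := by
    funext i
    unfold al
    rw [mx_comap (hPC.fA i), mx_comap (hPC.fB i)]
  have hvd : Vd B v' D := by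
    refine ⟨fun b hb' => hv.1 _ (hst γ b hb'), fun j => ?_⟩
    rw [mx_comap (hPC.fam j), ← hv.2 j]
    change v (ρ γ (hh D j)) = _
    rw [hPC.hh_inv]
  have h1 := hf Γ v' hvd m
  rw [nm_eq_mz, hal] at h1
  rw [ga_coeff]
  exact h1

/-- The action on a chart. -/
noncomputable def rC' (hst : ∀ γ, ∀ b ∈ B, ρ γ b ∈ B) (hPC : PC ρ B A B') (D : Tp A B')
    (dg : L ≃+ (ι → ℤ)) : G →* (CC dg hPC D ≃+* CC dg hPC D) where
  toFun γ :=
    { toFun := fun f => ⟨ga ρ L γ f, ga_mem_CC' hst hPC γ f.2⟩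
      invFun := fun f => ⟨ga ρ L γ⁻¹ f, ga_mem_CC' hst hPC γ⁻¹ f.2⟩
      left_inv := fun f => Subtype.ext (by
        change ga ρ L γ⁻¹ (ga ρ L γ f) = f
        rw [← ga_mul, inv_mul_cancel, ga_one])
      right_inv := fun f => Subtype.ext (by
        change ga ρ L γ (ga ρ L γ⁻¹ f) = f
        rw [← ga_mul, mul_inv_cancel, ga_one])
      map_mul' := fun f g => Subtype.ext (map_mul (ga ρ L γ) _ _)
      map_add' := fun f g => Subtype.ext (map_add (ga ρ L γ) _ _) }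
  map_one' := RingEquiv.ext fun f => Subtype.ext (ga_one (f : ML K L))
  map_mul' γ γ' := RingEquiv.ext fun f => Subtype.ext (ga_mul γ γ' (f : ML K L))

/-- The action on the algebra. -/
noncomputable def actB' (hst : ∀ γ, ∀ b ∈ B, ρ γ b ∈ B) : G →* (B ≃+* B) where
  toFun γ :=
    { toFun := fun f => ⟨ρ γ f, hst γ f f.2⟩
      invFun := fun f => ⟨ρ γ⁻¹ f, hst γ⁻¹ f f.2⟩
      left_inv := fun f => Subtype.ext (by
        change ρ γ⁻¹ (ρ γ (f : K)) = f
        rw [← AlgEquiv.mul_apply, ← map_mul, inv_mul_cancel, map_one, AlgEquiv.one_apply])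
      right_inv := fun f => Subtype.ext (by
        change ρ γ (ρ γ⁻¹ (f : K)) = f
        rw [← AlgEquiv.mul_apply, ← map_mul, mul_inv_cancel, map_one, AlgEquiv.one_apply])
      map_mul' := fun f g => Subtype.ext (map_mul (ρ γ) _ _)
      map_add' := fun f g => Subtype.ext (map_add (ρ γ) _ _) }
  map_one' := RingEquiv.ext fun f => Subtype.ext (by
    change ρ 1 (f : K) = f
    rw [map_one, AlgEquiv.one_apply])
  map_mul' γ γ' := RingEquiv.ext fun f => Subtype.ext (by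
    change ρ (γ * γ') (f : K) = ρ γ (ρ γ' (f : K))
    rw [map_mul, AlgEquiv.mul_apply])

/-- The inclusion of the algebra. -/
noncomputable def psB (dg : L ≃+ (ι → ℤ)) (hPC : PC ρ B A B') (D : Tp A B') :
    B →+* CC dg hPC D where
  toFun := fun b => ⟨mo 0 b, (mo_mem_CC hPC).2 fun Γ _ v hv => by
    rw [map_zero, nm_zero]
    exact hv.1 _ b.2⟩
  map_one' := rfl
  map_mul' := fun a b => Subtype.ext (by
    change mo (0 : L) ((a : K) * b) = mo 0 (a : K) * mo 0 (b : K)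
    rw [mo_mul, add_zero])
  map_zero' := Subtype.ext (mo_zero 0)
  map_add' := fun a b => Subtype.ext (mo_add 0 (a : K) b)

lemma eq_one_of_fix' (hb : SB ρ B Z) {γ : G} (h : ∀ s ∈ Z, ρ γ s = s) : ρ γ = 1 := by
  have h1 : B ≤ AlgHom.equalizer ((ρ γ : K ≃ₐ[k] K) : K →ₐ[k] K) (AlgHom.id k K) := by
    rw [hb.gen]
    exact Algebra.adjoin_le fun s hs => h s hs
  ext x
  obtain ⟨a, ha, b, hb', -, rfl⟩ := hb.fr x
  have h2 : ρ γ a = a := h1 ha
  have h3 : ρ γ b = b := h1 hb'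
  rw [map_div₀, h2, h3]
  rfl

end act

section at_

variable (hb : SB ρ B Z) (hLL : LLZ ρ B Z) (hS : LSys ρ B (Fl ρ Z p) A B' Ex N)
  (hcmp : ∀ q : Fin (Fintype.card (Lam G p)) → ℤ, (∀ j, |q j| ≤ (rB G p : ℕ)) →
    Cmp Ex (∑ j, q j • vz (N j))) (D : Tp A B')
  [IsDomain (ML K L)] [hp : Fact p.Prime] [CharP k p]

include hb hLL hcmp

/-- The local data at a prime of the chart. -/
theorem exists_loc (Q : Ideal (CC dg hS.pc D)) (hQ : Q.IsPrime) :
    ∃ (V : ValuationSubring (FractionRing (ML K L)))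
      (ps : Lam G p ≃ Fin (Fintype.card (Lam G p))) (I H : Subgroup G)
      (R : Subalgebra k (ML K L)), Cen dg hS.pc D Q V.valuation ∧
      Cx ρ B Z p A B' Ex N ps (vK k L V.valuation) ∧
      LM ρ B Z p N ps dg {i | al A B' (vK k L V.valuation) i < 1} V.valuation I H R ∧
      (∀ c, c ∈ I ↔ Rel ρ Z (vK k L V.valuation) c) ∧
      (∀ h, h ∈ H ↔ ∀ b ∈ B, vK k L V.valuation (ρ h b - b) < 1) ∧ IsPGroup p I := by
  obtain ⟨V, hV⟩ := exists_cen (dg := dg) hS.pc D Q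
  obtain ⟨ps, hps⟩ := hS.en _ (vK k L V.valuation) hV.pos
  have hx : Cx ρ B Z p A B' Ex N ps (vK k L V.valuation) := ⟨hb, hS, hcmp, hV.pos, hps⟩
  obtain ⟨I, hI, hIp, hIB⟩ := rel_group (v := vK k L V.valuation) (p := p) hb hV.pos
  let q : Ideal B := Q.comap (psB dg hS.pc D)
  have hq : q.IsPrime := Ideal.comap_isPrime (psB dg hS.pc D) Q
  have hqv : ∀ b : B, b ∈ q ↔ vK k L V.valuation (b : K) < 1 := by
    intro b
    rw [vK_apply]
    exact (hV.lt (psB dg hS.pc D b)).symm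
  let H : Subgroup G := Pool.Agent.Y824.G4.iner (actB' (stB hb)) q
  have hH : ∀ h, h ∈ H ↔ ∀ b ∈ B, vK k L V.valuation (ρ h b - b) < 1 := by
    intro h
    constructor
    · intro hh b hbB
      exact (hqv _).1 (hh ⟨b, hbB⟩)
    · intro hh b
      exact (hqv _).2 (hh b b.2)
  have hIH : I ≤ H := fun c hc => (hH c).2 (hIB c hc)
  obtain ⟨R, hR⟩ := exists_LM hx (mov_C hx hV) hp.out.pos hLL q hq hqv I H hIH
    (fun c hc => (hI c).1 hc) hH
  exact ⟨V, ps, I, H, R, hV, hx, hR, hI, hH, hIp⟩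

/-- The charts are locally smooth and regular. -/
theorem loc_CC' (Q : Ideal (CC dg hS.pc D)) (hQ : Q.IsPrime) :
    ∃ (x : ML K L) (hx : x ∈ CC dg hS.pc D), IsUnit x ∧ (⟨x, hx⟩ : CC dg hS.pc D) ∉ Q ∧
      Algebra.Smooth k (lc (CC dg hS.pc D) x hx) ∧ IsRegularRing (lc (CC dg hS.pc D) x hx) := by
  obtain ⟨V, ps, I, H, R, hV, hx, hR, hI, hH, -⟩ := exists_loc (dg := dg) hb hLL hS hcmp D Q hQ
  obtain ⟨d, a, hd, ha, h1, h2, h3⟩ := loc_chart hx hV hR hI hH hp.out.pos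
  exact ⟨mo d a, hd, isUnit_mo ha, fun hQ => ((hV.lt _).2 hQ).ne h1, h2, h3⟩

/-- The charts are smooth. -/
theorem smooth_CC' : Algebra.Smooth k (CC dg hS.pc D) := by
  refine smooth_of_lc _ fun Q hQ => ?_
  obtain ⟨x, hx, hu, hxQ, hsm, -⟩ := loc_CC' (dg := dg) hb hLL hS hcmp D Q hQ
  exact ⟨x, hx, hu, hxQ, hsm⟩

/-- The charts are regular. -/
theorem regular_CC' : IsRegularRing (CC dg hS.pc D) := by
  have h1 := smooth_CC' (dg := dg) hb hLL hS hcmp D
  have h2 : IsNoetherianRing (CC dg hS.pc D) := Algebra.FiniteType.isNoetherianRing k _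
  refine regular_of_lc h2 fun Q hQ => ?_
  obtain ⟨x, hx, hu, hxQ, -, hreg⟩ := loc_CC' (dg := dg) hb hLL hS hcmp D Q hQ
  exact ⟨x, hx, hu, hxQ, hreg⟩

/-- The inertia groups. -/
theorem inertia_CC' (hG : ¬ p ^ 2 ∣ Nat.card G) (Q : Ideal (CC dg hS.pc D)) (hQ : Q.IsPrime) :
    (∀ g, (∀ b, rC' (stB hb) hS.pc D dg g b - b ∈ Q) → g = 1) ∨
      ∃ (p : ℕ) (τ : G), p.Prime ∧ τ ^ p = 1 ∧
        (∀ g, (∀ b, rC' (stB hb) hS.pc D dg g b - b ∈ Q) → g ∈ Subgroup.zpowers τ) ∧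
        ∃ b, ∀ c, ∃ s, s ∉ Q ∧ (rC' (stB hb) hS.pc D dg τ b - b) ∣
          s * (rC' (stB hb) hS.pc D dg τ c - c) := by
  obtain ⟨V, ps, I, H, R, hV, hx, hR, hI, hH, hIp⟩ :=
    exists_loc (dg := dg) hb hLL hS hcmp D Q hQ
  let ρ' := rC' (stB hb) hS.pc D dg
  let J := Pool.Agent.Y824.G4.iner ρ' Q
  have hJ : ∀ g, g ∈ J ↔ ∀ b, ρ' g b - b ∈ Q := fun g => Iff.rfl
  have hst : ∀ γ, ∀ f ∈ CC dg hS.pc D, ga ρ L γ f ∈ CC dg hS.pc D :=
    fun γ f hf => ga_mem_CC' (stB hb) hS.pc γ hf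
  have hinr : ∀ g ∈ J, Inr ρ (CC dg hS.pc D) V.valuation g := by
    intro g hg f hf
    exact (hV.lt _).2 (hg ⟨f, hf⟩)
  have hJI : J ≤ I := by
    intro g hg
    rw [hI]
    intro h i hi
    have h1 := fl_C hx hV (Sum.inl h) i hi
    have h2 := (inr_LW (CC dg hS.pc D) hst hV.le (hinr g hg) _ h1).2.2
    rw [ga_mo, ← mo_sub, ← dlt_apply, (mov_C hx hV).symm, hx.mz_inl,
      div_lt_one₀ (zero_lt_iff.2 (hx.dv_ne h))] at h2
    exact h2
  obtain ⟨r, hr⟩ := IsPGroup.iff_card.1 hIp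
  have hr1 : r ≤ 1 := by
    by_contra hcon
    refine hG (dvd_trans ?_ (Subgroup.card_subgroup_dvd_card I))
    rw [hr]
    exact pow_dvd_pow p (by omega)
  by_cases htriv : ∀ g, (∀ b, ρ' g b - b ∈ Q) → g = 1
  · exact Or.inl htriv
  right
  push Not at htriv
  obtain ⟨g0, hg0, hg01⟩ := htriv
  have hg0J : g0 ∈ J := hg0
  have hr' : r = 1 := by
    interval_cases r
    · exfalso
      rw [pow_zero, Subgroup.card_eq_one] at hr
      have h1 := hJI hg0J
      rw [hr, Subgroup.mem_bot] at h1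
      exact hg01 h1
    · rfl
  rw [hr', pow_one] at hr
  have hJeq : J = I := by
    refine Subgroup.eq_of_le_of_card_ge hJI ?_
    have h1 : Nat.card J ∣ p := by
      rw [← hr]
      exact Subgroup.card_dvd_of_le hJI
    rcases (Nat.dvd_prime hp.out).1 h1 with h2 | h2
    · exfalso
      rw [Subgroup.card_eq_one] at h2
      rw [h2, Subgroup.mem_bot] at hg0J
      exact hg01 hg0J
    · rw [h2, hr]
  have hIpow : ∀ c ∈ I, c ^ p = 1 := by
    intro c hc
    have h1 : (⟨c, hc⟩ : I) ^ Nat.card I = 1 := pow_card_eq_one'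
    rw [hr] at h1
    exact congrArg Subtype.val h1
  have hzp : ∀ c ∈ I, c ≠ 1 → ∀ τ ∈ I, τ ∈ Subgroup.zpowers c := by
    intro c hc hc1 τ hτ
    have h1 : (⟨τ, hτ⟩ : I) ∈ Subgroup.zpowers (⟨c, hc⟩ : I) :=
      mem_zpowers_of_prime_card hr (fun h => hc1 (congrArg Subtype.val h))
    obtain ⟨m, hm⟩ := Subgroup.mem_zpowers_iff.1 h1
    exact Subgroup.mem_zpowers_iff.2 ⟨m, congrArg Subtype.val hm⟩
  have hIg : ∀ c ∈ I, c ≠ 1 → ∀ τ ∈ I, ∃ s : ℕ, c ^ s = τ := by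
    intro c hc hc1 τ hτ
    have h1 := hzp c hc hc1 τ hτ
    rw [← mem_powers_iff_mem_zpowers] at h1
    obtain ⟨m, hm⟩ := h1
    exact ⟨m, hm⟩
  obtain ⟨τ, hτI, hτ1, b, hbC, hb'⟩ := exists_princ hx hV hR hI hH hIpow hIg
    ⟨g0, hJI hg0J, hg01⟩ (fun c hc => hinr c (by rw [hJeq]; exact hc)) hst
  refine ⟨p, τ, hp.out, hIpow τ hτI, fun g hg => hzp τ hτI hτ1 g (hJI hg), ⟨b, hbC⟩,
    fun c => ?_⟩
  obtain ⟨s, hs, hsW, u, hu, hsu⟩ := hb' c c.2
  refine ⟨⟨s, hs⟩, fun hsQ => ((hV.lt ⟨s, hs⟩).2 hsQ).ne hsW, ⟨u, hu⟩, Subtype.ext ?_⟩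
  change s * (ga ρ L τ c - c) = (ga ρ L τ b - b) * u
  rw [hsu, mul_comm]

/-- The invariants of the charts are smooth. -/
theorem smooth_inv' [PerfectField k] (hG : ¬ p ^ 2 ∣ Nat.card G) :
    Algebra.Smooth k ↥(CC dg hS.pc D ⊓ Fx ρ L) := by
  have hsm := smooth_CC' (dg := dg) hb hLL hS hcmp D
  have hreg := regular_CC' (dg := dg) hb hLL hS hcmp D
  let ρ' := rC' (stB hb) hS.pc D dg
  let C := CC dg hS.pc D
  let A' : Subalgebra k (ML K L) := C ⊓ Fx ρ L
  have hle : A' ≤ C := inf_le_left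
  let _ : Algebra A' C := (Subalgebra.inclusion hle).toRingHom.toAlgebra
  have _ : IsScalarTower k A' C := IsScalarTower.of_algebraMap_eq fun r => rfl
  have hcoe : ∀ a : A', ((algebraMap A' C a : C) : ML K L) = a := fun a => rfl
  have hinjA : Function.Injective (algebraMap A' C) := fun a b hab => by
    apply Subtype.ext
    rw [← hcoe a, ← hcoe b, hab]
  have hFx : ∀ f : ML K L, f ∈ Fx ρ L ↔ ∀ g, ga ρ L g f = f := by
    intro f
    constructor
    · intro hf g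
      refine ml_ext fun m => ?_
      rw [ga_coeff]
      exact hf g m
    · intro hf g m
      have h1 := congrArg (fun f => AddMonoidAlgebra.coeff f m) (hf g)
      have h2 : (ga ρ L g f).coeff m = f.coeff m := h1
      rwa [ga_coeff] at h2
  have hinv : ∀ x : C, (∀ g, ρ' g x = x) ↔ ∃ a : A', algebraMap A' C a = x := by
    intro x
    constructor
    · intro hx
      exact ⟨⟨x, x.2, (hFx _).2 fun g => congrArg Subtype.val (hx g)⟩, rfl⟩
    · rintro ⟨a, rfl⟩ g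
      exact Subtype.ext ((hFx _).1 a.2.2 g)
  have hftC : Algebra.FiniteType k C := inferInstance
  have hft : Algebra.FiniteType k A' := ft_inv hinjA ρ' fun x hx => (hinv x).1 hx
  have hnA : IsNoetherianRing A' := Algebra.FiniteType.isNoetherianRing k A'
  have hregA : IsRegularRing A' := by
    refine Pool.Agent.Y824.G4.t_DESCG C G ρ' ?_ A' (algebraMap A' C) hinjA hinv ?_
    · intro g hg
      refine hb.inj g (eq_one_of_fix' hb fun s hs => ?_)
      have h1 : mo (0 : L) s ∈ C := by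
        change mo (0 : L) s ∈ CC dg hS.pc D
        rw [mo_mem_CC]
        intro Γ _ v hv
        rw [map_zero, nm_zero]
        exact hv.1 _ (hb.fam.mem _ hs)
      have h2 := congrArg Subtype.val (hg ⟨_, h1⟩)
      have h3 : mo (0 : L) (ρ g s) = mo 0 s := by
        rw [← ga_mo]
        exact h2
      exact mo_inj h3
    · exact fun Q hQ => inertia_CC' (dg := dg) hb hLL hS hcmp D hG Q hQ
  exact Pool.Agent.N864.GT.smooth_of_regular

end at_

section base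

open AlgebraicGeometry CategoryTheory Pool.Agent.H920R2

/-- Resolution of the quotient in terms of the basic data. -/
theorem res_of_SB [PerfectField k] (hb : SB ρ B Z) (hLL : LLZ ρ B Z) {p : ℕ} [hp : Fact p.Prime]
    [CharP k p] (hG : ¬ p ^ 2 ∣ Nat.card G) (hic : ∀ x : K, IsIntegral B x → x ∈ B)
    {Aa : Type} [CommRing Aa] [IsDomain Aa] [Algebra k Aa] (g : Aa →ₐ[k] K)
    (hginj : Function.Injective g) (hg : ∀ x, (∃ a, g a = x) ↔ x ∈ B ∧ ∀ γ, ρ γ x = x) :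
    HasResolution (X := Spec (CommRingCat.of Aa))
      (Spec.map (CommRingCat.ofHom (algebraMap k Aa))) := by
  obtain ⟨ι, _, _, A, B', Ex, N, hS, hcmp⟩ := exists_LS (lf_Fl (ρ := ρ) hb p) (rB G p)
  obtain ⟨L, _, dg, hNR⟩ := exists_nr ι
  have := hNR.1
  have : IsDomain (ML K L) := NoZeroDivisors.to_isDomain _
  have hPA := pa dg hS.pc g hg hic (stB hb)
  exact hNR.2 k Aa K g hginj _ _ _ _ (ma_of_pa hPA fun D =>
    smooth_inv' hb hLL hS hcmp D hG)

end base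

end Pool.Agent.Helper49.SP
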