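import Pool.Agent.Helper46.AQ.Fin2

/-!
# Permuted families and quotients by locally linear actions: definitions
-/

set_option autoImplicit false
set_option linter.unusedSectionVars false

namespace Pool.Agent.Helper49.SP

open Finset Pool.Agent.W559.Mg Pool.Agent.Helper46.AQ Pointwise

section dlt

variable {k K : Type} [Field k] [Field K] [Algebra k K] {G : Type} [Group G]

/-- The difference operator of a group element. -/
noncomputable def dlt (ρ : G →* (K ≃ₐ[k] K)) (c : G) : Module.End k K :=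
  (ρ c : K ≃ₐ[k] K).toLinearMap - 1

lemma dlt_apply (ρ : G →* (K ≃ₐ[k] K)) (c : G) (x : K) : dlt ρ c x = ρ c x - x := rfl

end dlt

section sys

variable {k K : Type} [Field k] [Field K] [Algebra k K] {G : Type} [Group G]
  {Λ : Type} [Fintype Λ] {ι : Type} [Fintype ι]

/-- Finitely many families of nonzero elements of `B` which are permuted by the group. -/
structure LF (ρ : G →* (K ≃ₐ[k] K)) (B : Subalgebra k K) (Fl : Λ → Finset K) : Prop where
  ne : ∀ l, (Fl l).Nonempty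
  mem : ∀ l, ∀ a ∈ Fl l, a ∈ B
  n0 : ∀ l, ∀ a ∈ Fl l, a ≠ 0
  pm : ∀ g : G, ∃ π : Equiv.Perm Λ, ∀ l, ∀ a ∈ Fl l, ρ g a ∈ Fl (π l)
  one : ∃ l, (1 : K) ∈ Fl l

/-- Systems of coordinates for permuted families. -/
structure LSys (ρ : G →* (K ≃ₐ[k] K)) (B : Subalgebra k K) (Fl : Λ → Finset K)
    (A B' : ι → Finset K) (Ex : ι → ι → Prop) (N : ℕ → ι → ℕ) : Prop where
  pc : PC ρ B A B'
  irr : ∀ i, ¬ Ex i i
  sym : ∀ i j, Ex i j → Ex j i
  mono : ∀ j j' i, j ≤ j' → N j i ≤ N j' i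
  en : ∀ (Γ : Type) [LinearOrderedCommGroupWithZero Γ] (v : Valuation K Γ), Pos B v →
    ∃ ps : Λ ≃ Fin (Fintype.card Λ), ∀ l, mx v (Fl l) = mz (al A B' v) (vz (N (ps l)))
  ex : ∀ (Γ : Type) [LinearOrderedCommGroupWithZero Γ] (v : Valuation K Γ), Pos B v →
    ∀ i j, Ex i j → al A B' v i = 1 ∨ al A B' v j = 1
  un : ∀ (Γ : Type) [LinearOrderedCommGroupWithZero Γ] (v : Valuation K Γ), Pos B v →
    ∀ ξ : ι → Γ, (∀ i, ξ i ≠ 0) → (∀ i, ξ i ≤ 1) → (∀ i j, Ex i j → ξ i = 1 ∨ ξ j = 1) →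
      ∀ ps : Λ ≃ Fin (Fintype.card Λ), (∀ l, mx v (Fl l) = mz ξ (vz (N (ps l)))) →
        ξ = al A B' v
  la : ∃ c : ι ⊕ ι → ι → ℤ, LA B A B' c

end sys

section LW

variable {k K : Type} [Field k] [Field K] [Algebra k K] {L : Type} [AddCommGroup L]
  {F Γ : Type} [Field F] [Algebra (ML K L) F] [LinearOrderedCommGroupWithZero Γ]

/-- The localization of `C` at its homogeneous elements of value one. -/
def LW (C : Subalgebra k (ML K L)) (W : Valuation F Γ) : Subalgebra k (ML K L) where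
  carrier := {f | ∃ (d : L) (a : K), (mo d a : ML K L) ∈ C ∧
    W (algebraMap (ML K L) F (mo d a)) = 1 ∧ mo d a * f ∈ C}
  mul_mem' := by
    rintro f g ⟨d, a, h1, h2, h3⟩ ⟨e, b, h4, h5, h6⟩
    refine ⟨d + e, a * b, ?_, ?_, ?_⟩
    · rw [← mo_mul]
      exact C.mul_mem h1 h4
    · rw [← mo_mul, map_mul, map_mul, h2, h5, one_mul]
    · rw [← mo_mul]
      have : (mo d a * mo e b : ML K L) * (f * g) = (mo d a * f) * (mo e b * g) := by ring
      rw [this]
      exact C.mul_mem h3 h6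
  add_mem' := by
    rintro f g ⟨d, a, h1, h2, h3⟩ ⟨e, b, h4, h5, h6⟩
    refine ⟨d + e, a * b, ?_, ?_, ?_⟩
    · rw [← mo_mul]
      exact C.mul_mem h1 h4
    · rw [← mo_mul, map_mul, map_mul, h2, h5, one_mul]
    · rw [← mo_mul]
      have : (mo d a * mo e b : ML K L) * (f + g) = mo e b * (mo d a * f) +
        mo d a * (mo e b * g) := by ring
      rw [this]
      exact C.add_mem (C.mul_mem h4 h3) (C.mul_mem h1 h6)
  algebraMap_mem' r := ⟨0, 1, by rw [mo_one]; exact C.one_mem, by rw [mo_one, map_one, map_one],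
    by rw [mo_one, one_mul]; exact C.algebraMap_mem r⟩

lemma le_LW (C : Subalgebra k (ML K L)) (W : Valuation F Γ) : C ≤ LW C W := fun f hf =>
  ⟨0, 1, by rw [mo_one]; exact C.one_mem, by rw [mo_one, map_one, map_one],
    by rw [mo_one, one_mul]; exact hf⟩

end LW

section MR

variable {k K : Type} [Field k] [Field K] [Algebra k K] {L : Type} [AddCommGroup L]
  {ι : Type} [Fintype ι] [DecidableEq ι]

/-- The local model: generated by an algebra `E`, by the variables, by the inverses of the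
variables outside `J` and by the rescaled etale coordinates. -/
noncomputable def MR (dg : L ≃+ (ι → ℤ)) (J : Set ι) (E : Subalgebra k K) {n : ℕ} (y : Fin n → K)
    (m : Fin n → ι → ℤ) : Subalgebra k (ML K L) :=
  Algebra.adjoin k ({f | ∃ b ∈ E, f = mo 0 b} ∪ {f | ∃ i, f = xz K dg (Pi.single i 1)} ∪
    {f | ∃ i, i ∉ J ∧ f = xz K dg (Pi.single i (-1))} ∪ {f | ∃ j, f = mo (dg.symm (m j)) (y j)})

end MR

end Pool.Agent.Helper49.SP
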