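import Pool.Agent.Helper49.SP.PRA

/-!
# Package R: resolution of the quotient of a power of a smooth affine variety by a group of
permutations, from `res_of_SB` and `exists_etale_gen`
-/

set_option autoImplicit false
set_option linter.unusedSectionVars false
set_option linter.unusedVariables false

namespace Pool.Agent.Helper49.SP

open Finset Pool.Agent.W559.Mg Pool.Agent.Helper46.AQ Pointwise
  AlgebraicGeometry CategoryTheory TensorProduct Pool.Agent.H920R2 Pool.Agent.Helper49.SP.PTL

/-- The statement of `res_of_SB`. -/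
def ResSBStm : Prop := ∀ (k K : Type) [Field k] [Field K] [Algebra k K] [DecidableEq K]
    (G : Type) [Group G] [Fintype G] [DecidableEq G] (ρ : G →* (K ≃ₐ[k] K)) (B : Subalgebra k K)
    (Z : Finset K) [PerfectField k] (_ : SB ρ B Z) (_ : LLZ ρ B Z) (p : ℕ) [Fact p.Prime]
    [CharP k p] (_ : ¬ p ^ 2 ∣ Nat.card G) (_ : ∀ x : K, IsIntegral B x → x ∈ B)
    (Aa : Type) [CommRing Aa] [IsDomain Aa] [Algebra k Aa] (g : Aa →ₐ[k] K)
    (_ : Function.Injective g) (_ : ∀ x, (∃ a, g a = x) ↔ x ∈ B ∧ ∀ γ, ρ γ x = x),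
    HasResolution (X := Spec (CommRingCat.of Aa))
      (Spec.map (CommRingCat.ofHom (algebraMap k Aa)))

/-- Generators without zero. -/
lemma exists_gen {k K : Type} [Field k] [Field K] [Algebra k K] (A : Subalgebra k K)
    (hft : Algebra.FiniteType k A) : ∃ Z : Finset K, (1 : K) ∈ Z ∧ (0 : K) ∉ Z ∧
      A = Algebra.adjoin k (Z : Set K) := by
  classical
  obtain ⟨s, hs⟩ := hft.1
  refine ⟨insert 1 ((s.image (Subtype.val : A → K)).erase 0), Finset.mem_insert_self _ _, ?_, ?_⟩
  · rw [Finset.mem_insert, not_or]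
    exact ⟨zero_ne_one, Finset.notMem_erase _ _⟩
  · apply le_antisymm
    · intro x hx
      have h1 : (⟨x, hx⟩ : A) ∈ Algebra.adjoin k (s : Set A) := by rw [hs]; trivial
      have h2 : A.val ⟨x, hx⟩ ∈ (Algebra.adjoin k (s : Set A)).map A.val := ⟨_, h1, rfl⟩
      rw [AlgHom.map_adjoin] at h2
      have h3 : Algebra.adjoin k (A.val '' (s : Set A)) ≤ Algebra.adjoin k
          ((insert 1 ((s.image (Subtype.val : A → K)).erase 0) : Finset K) : Set K) := by
        rw [Algebra.adjoin_le_iff]
        rintro _ ⟨y, hy, rfl⟩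
        by_cases h0 : (y : K) = 0
        · change (y : K) ∈ _
          rw [h0]
          exact Subalgebra.zero_mem _
        · apply Algebra.subset_adjoin
          rw [Finset.mem_coe, Finset.mem_insert]
          right
          rw [Finset.mem_erase]
          exact ⟨h0, Finset.mem_image.2 ⟨y, hy, rfl⟩⟩
      exact h3 h2
    · rw [Algebra.adjoin_le_iff]
      intro x hx
      rw [Finset.mem_coe, Finset.mem_insert] at hx
      rcases hx with rfl | hx
      · exact A.one_mem
      · obtain ⟨y, -, rfl⟩ := Finset.mem_image.1 (Finset.mem_erase.1 hx).2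
        exact y.2

/-- Resolution of the quotient of a power of a smooth affine variety by a group of permutations. -/
theorem res_perm_of (hRes : ResSBStm) (hK : EtaleGenStm) (p : ℕ) [Fact p.Prime] (k : Type)
    [Field k] [CharP k p] [PerfectField k]
    (A : Type) [CommRing A] [IsDomain A] [Algebra k A] [Algebra.Smooth k A] (n : ℕ)
    (hdom : IsDomain (⨂[k] _ : Fin n, A)) (G : Subgroup (Equiv.Perm (Fin n)))
    (hG : ¬ p ^ 2 ∣ Nat.card G) :
    Algebra.FiniteType k (permInvariants k A G) ∧
    HasResolution (X := Spec (CommRingCat.of (permInvariants k A G)))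
      (Spec.map (CommRingCat.ofHom (algebraMap k (permInvariants k A G)))) := by
  classical
  refine ⟨ft_perm G, ?_⟩
  have hjA := isCoprod_pi (k := k) (A := fun _ : Fin n => A)
  let L := FractionRing (⨂[k] _ : Fin n, A)
  let gB : (⨂[k] _ : Fin n, A) →ₐ[k] L := IsScalarTower.toAlgHom k (⨂[k] _ : Fin n, A) L
  have hinj : Function.Injective gB := IsFractionRing.injective (⨂[k] _ : Fin n, A) L
  let Ψ : Equiv.Perm (Fin n) →* (L ≃ₐ[k] L) :=
    (IsFractionRing.fieldEquivOfAlgEquivHom k L).comp (PEq k A n)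
  have hΨ : ∀ π b, Ψ π (gB b) = gB (PEq k A n π b) := fun π b =>
    IsFractionRing.fieldEquivOfAlgEquiv_algebraMap k L L (PEq k A n π) b
  -- the fraction field
  let K := FractionRing A
  let gi : Fin n → A →ₐ[k] L := fun i => gB.comp (sg k A i)
  have hgi : ∀ i, Function.Injective (gi i) := fun i =>
    hinj.comp (single_injective (k := k) (A := fun _ : Fin n => A) i)
  let e : Fin n → K →ₐ[k] L := fun i => IsFractionRing.liftAlgHom (g := gi i) (hgi i)
  have he : ∀ i a, e i (algebraMap A K a) = gi i a := fun i a =>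
    IsFractionRing.lift_algebraMap (hgi i) a
  obtain ⟨g, hg⟩ := (isCoprod_pi (k := k) (A := fun _ : Fin n => K)).lift L e
  have hginj : Function.Injective g := inj_frac K gB hinj e he g hg
  have hΨe : ∀ π i x, Ψ π (e i x) = e (π i) x := by
    intro π i x
    obtain ⟨a, c, -, rfl⟩ := IsFractionRing.div_surjective (A := A) x
    have h1 : ∀ a, Ψ π (e i (algebraMap A K a)) = e (π i) (algebraMap A K a) := by
      intro a
      rw [he, he]
      have h6 := hΨ π (sg k A i a)
      rw [PEq_sg] at h6
      exact h6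
    rw [map_div₀, map_div₀, h1, h1, map_div₀]
  let A' : Subalgebra k K := (IsScalarTower.toAlgHom k A K).range
  have hA' : Algebra.Smooth k A' := Algebra.Smooth.of_equiv
    (AlgEquiv.ofInjective (IsScalarTower.toAlgHom k A K) (IsFractionRing.injective A K))
  obtain ⟨ZA, h1Z, h0Z, hZA⟩ := exists_gen A' inferInstance
  have hrange : TB e A' = gB.range := by
    change TTF e (fun _ => A') = gB.range
    apply le_antisymm
    · refine TTF_le e _ _ ?_
      rintro i _ ⟨a, rfl⟩
      exact ⟨_, (he i a).symm⟩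
    · rintro _ ⟨z, rfl⟩
      have h2 : z ∈ Algebra.adjoin k (⋃ i, Set.range
          (PiTensorProduct.singleAlgHom (R := k) (A := fun _ : Fin n => A) i)) := by
        rw [coprod_adjoin hjA]; trivial
      change gB z ∈ _
      induction h2 using Algebra.adjoin_induction with
      | mem x hx =>
        obtain ⟨i, a, rfl⟩ := Set.mem_iUnion.1 hx
        have h3 : gB (PiTensorProduct.singleAlgHom (R := k) (A := fun _ : Fin n => A) i a) =
          e i (algebraMap A K a) := (he i a).symm
        rw [h3]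
        exact e_mem_TTF e (fun _ => A') i ⟨a, rfl⟩
      | algebraMap r => rw [AlgHom.commutes]; exact Subalgebra.algebraMap_mem _ r
      | add x y _ _ hx hy => rw [map_add]; exact Subalgebra.add_mem _ hx hy
      | mul x y _ _ hx hy => rw [map_mul]; exact Subalgebra.mul_mem _ hx hy
  have hft : Algebra.FiniteType k (⨂[k] _ : Fin n, A) := coprod_finiteType hjA fun i =>
    inferInstance
  have hsmB : Algebra.Smooth k (⨂[k] _ : Fin n, A) :=
    ⟨coprod_formallySmooth hjA fun i => inferInstance,
      Algebra.FinitePresentation.of_finiteType.1 hft⟩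
  have hsm : Algebra.Smooth k (TB e A') := by
    rw [hrange]
    exact Algebra.Smooth.of_equiv (AlgEquiv.ofInjective gB hinj)
  -- the group
  let H : Subgroup (L ≃ₐ[k] L) := (Ψ.comp G.subtype).range
  have hHfin : Finite H := Set.finite_range (Ψ.comp G.subtype)
  have hHft : Fintype H := Fintype.ofFinite H
  have hHG : ¬ p ^ 2 ∣ Nat.card H := fun h =>
    hG (h.trans (Subgroup.card_range_dvd (Ψ.comp G.subtype)))
  let Z : Finset L := insert 1 (Finset.univ.biUnion fun i => ZA.image (e i))
  have hZe : ∀ i, ∀ z ∈ ZA, e i z ∈ Z := fun i z hz =>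
    Finset.mem_insert_of_mem (Finset.mem_biUnion.2 ⟨i, Finset.mem_univ i,
      Finset.mem_image.2 ⟨z, hz, rfl⟩⟩)
  have hZ' : ∀ z ∈ Z, z = 1 ∨ ∃ i, ∃ w ∈ ZA, e i w = z := by
    intro z hz
    rcases Finset.mem_insert.1 hz with h | h
    · exact Or.inl h
    · obtain ⟨i, -, h⟩ := Finset.mem_biUnion.1 h
      obtain ⟨w, hw, rfl⟩ := Finset.mem_image.1 h
      exact Or.inr ⟨i, w, hw, rfl⟩
  have hZAmem : ∀ w ∈ ZA, w ∈ A' := fun w hw => by
    rw [hZA]
    exact Algebra.subset_adjoin hw
  have hZmem : ∀ z ∈ Z, z ∈ TB e A' := by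
    intro z hz
    rcases hZ' z hz with rfl | ⟨i, w, hw, rfl⟩
    · exact Subalgebra.one_mem _
    · exact e_mem_TTF e (fun _ => A') i (hZAmem w hw)
  have hSB : SB H.subtype (TB e A') Z :=
    { inj := fun h hh => Subtype.ext hh
      fam :=
        { ne := ⟨1, Finset.mem_insert_self _ _⟩
          mem := hZmem
          n0 := by
            intro z hz
            rcases hZ' z hz with rfl | ⟨i, w, hw, rfl⟩
            · exact one_ne_zero
            · intro h
              apply h0Z
              have : w = 0 := (map_eq_zero (e i)).1 h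
              rwa [← this]
          st := by
            rintro ⟨_, ⟨π, rfl⟩⟩ z hz
            change Ψ (π : Equiv.Perm (Fin n)) z ∈ Z
            rcases hZ' z hz with rfl | ⟨i, w, hw, rfl⟩
            · rw [map_one]
              exact Finset.mem_insert_self _ _
            · rw [hΨe]
              exact hZe _ _ hw }
      one := Finset.mem_insert_self _ _
      gen := by
        apply le_antisymm
        · change TTF e (fun _ => A') ≤ _
          refine TTF_le e _ _ ?_
          intro i x hx
          rw [hZA] at hx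
          have h1 : e i x ∈ (Algebra.adjoin k (ZA : Set K)).map (e i) := ⟨x, hx, rfl⟩
          rw [AlgHom.map_adjoin] at h1
          refine Algebra.adjoin_mono ?_ h1
          rintro _ ⟨w, hw, rfl⟩
          exact hZe i w hw
        · rw [Algebra.adjoin_le_iff]
          exact hZmem
      fr := by
        intro x
        obtain ⟨a, c, hc, rfl⟩ := IsFractionRing.div_surjective (A := ⨂[k] _ : Fin n, A) x
        refine ⟨_, ?_, _, ?_, ?_, rfl⟩
        · rw [hrange]; exact ⟨a, rfl⟩
        · rw [hrange]; exact ⟨c, rfl⟩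
        · intro h
          exact nonZeroDivisors.ne_zero hc (hinj (by rw [map_zero]; exact h)) }
  have hLL : LLZ H.subtype (TB e A') Z := by
    intro q hq
    obtain ⟨f, hf, hfq, m, x, h1, h2, h3⟩ :=
      perm_etale_of hK n e g hg hginj A' hA' ZA hZA q hq
    refine ⟨f, hf, hfq, m, x, h1, ?_, ?_⟩
    · intro j
      obtain ⟨i, z, hz, h4⟩ := h2 j
      rw [h4]
      exact hZe i z hz
    · rintro ⟨_, ⟨π, rfl⟩⟩ hh
      exact h3 ((Ψ (π : Equiv.Perm (Fin n)) : L ≃ₐ[k] L) : L →ₐ[k] L) π
        (fun i x => hΨe π i x) hh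
  refine hRes k L H H.subtype (TB e A') Z hSB hLL p hHG (hic_of_smooth _ hsm hSB.fr)
    (permInvariants k A G) (gB.comp (permInvariants k A G).val)
    (hinj.comp Subtype.val_injective) ?_
  intro x
  constructor
  · rintro ⟨a, rfl⟩
    refine ⟨?_, ?_⟩
    · rw [hrange]
      exact ⟨a, rfl⟩
    · rintro ⟨_, ⟨π, rfl⟩⟩
      change Ψ (π : Equiv.Perm (Fin n)) (gB (a : ⨂[k] _ : Fin n, A)) = gB a
      rw [hΨ, PEq_apply, a.2 _ (G.inv_mem π.2)]
  · rintro ⟨hx, h⟩
    rw [hrange] at hx
    obtain ⟨b, rfl⟩ := hx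
    refine ⟨⟨b, ?_⟩, rfl⟩
    intro π hπ
    apply hinj
    have h1 := h ⟨Ψ π⁻¹, ⟨⟨π⁻¹, G.inv_mem hπ⟩, rfl⟩⟩
    change Ψ π⁻¹ (gB b) = gB b at h1
    rw [hΨ, PEq_apply, inv_inv] at h1
    exact h1

end Pool.Agent.Helper49.SP
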