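import Pool.Agent.Helper49.SP.As7
import Pool.Agent.Helper49.SP.PR
import Pool.Agent.Helper49.SP.PK

/-!
# Resolution of the quotients of the powers of smooth affine varieties by permutation groups
-/

set_option autoImplicit false
set_option linter.unusedSectionVars false

namespace Pool.Agent.Helper49.SP

open AlgebraicGeometry CategoryTheory TensorProduct Pool.Agent.H920R2

/-- Resolution of the quotient of a power of a smooth affine variety by a group of permutations. -/
theorem res_perm (p : ℕ) [Fact p.Prime] (k : Type) [Field k] [CharP k p] [PerfectField k]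
    (A : Type) [CommRing A] [IsDomain A] [Algebra k A] [Algebra.Smooth k A] (n : ℕ)
    (hdom : IsDomain (⨂[k] _ : Fin n, A)) (G : Subgroup (Equiv.Perm (Fin n)))
    (hG : ¬ p ^ 2 ∣ Nat.card G) :
    Algebra.FiniteType k (permInvariants k A G) ∧
    HasResolution (X := Spec (CommRingCat.of (permInvariants k A G)))
      (Spec.map (CommRingCat.ofHom (algebraMap k (permInvariants k A G)))) :=
  res_perm_of (fun _ _ _ _ _ _ _ _ _ _ _ _ _ _ hb hLL _ _ _ hG hic _ _ _ _ g hginj hg =>
    res_of_SB hb hLL hG hic g hginj hg)
    (fun _ _ _ _ _ A hsm Z hZ P hP => exists_etale_gen A hsm Z hZ P hP) p k A n hdom G hG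

end Pool.Agent.Helper49.SP
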