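import Pool.Agent.Helper46.L.W559.Mg.A1
import Pool.Agent.Helper49.SP.PEet

/-!
# Smoothness of a compositum
-/

set_option autoImplicit false
set_option linter.unusedSectionVars false

namespace Pool.Agent.Helper49.SP

open Finset Pool.Agent.W559.Mg TensorProduct

section up

variable {k A S : Type} [CommRing k] [CommRing A] [CommRing S] [Algebra k A] [Algebra k S]
  [Algebra A S] [IsScalarTower k A S]

/-- A subalgebra over `k` which contains the image of `A`, as a subalgebra over `A`. -/
def upA (P : Subalgebra k S) (h : ∀ a : A, algebraMap A S a ∈ P) : Subalgebra A S :=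
  { P with algebraMap_mem' := h }

lemma mem_upA {P : Subalgebra k S} {h : ∀ a : A, algebraMap A S a ∈ P} {f : S} :
    f ∈ upA P h ↔ f ∈ P := Iff.rfl

/-- The identity. -/
def upE (P : Subalgebra k S) (h : ∀ a : A, algebraMap A S a ∈ P) : P ≃ₐ[k] upA P h where
  toFun x := ⟨x.1, x.2⟩
  invFun x := ⟨x.1, x.2⟩
  left_inv _ := rfl
  right_inv _ := rfl
  map_mul' _ _ := rfl
  map_add' _ _ := rfl
  commutes' r := Subtype.ext (by
    change algebraMap k S r = _
    rfl)

lemma upA_sup (P Q : Subalgebra k S) (h : ∀ a : A, algebraMap A S a ∈ P)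
    (h' : ∀ a : A, algebraMap A S a ∈ Q) (h'' : ∀ a : A, algebraMap A S a ∈ P ⊔ Q) :
    upA P h ⊔ upA Q h' = upA (P ⊔ Q) h'' := by
  apply le_antisymm
  · refine sup_le ?_ ?_
    · intro f hf
      exact (le_sup_left : P ≤ P ⊔ Q) hf
    · intro f hf
      exact (le_sup_right : Q ≤ P ⊔ Q) hf
  · intro f hf
    have h1 : P ≤ (upA P h ⊔ upA Q h').restrictScalars k := fun f hf =>
      (le_sup_left : upA P h ≤ upA P h ⊔ upA Q h') hf
    have h2 : Q ≤ (upA P h ⊔ upA Q h').restrictScalars k := fun f hf =>
      (le_sup_right : upA Q h' ≤ upA P h ⊔ upA Q h') hf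
    exact (sup_le h1 h2) hf

/-- Smoothness of the compositum. -/
theorem smooth_sup (P Q : Subalgebra k S) (h : ∀ a : A, algebraMap A S a ∈ P)
    (h' : ∀ a : A, algebraMap A S a ∈ Q) (hP : Algebra.Smooth k P)
    (hQ : Algebra.Etale A (upA Q h')) (hd : (upA P h).LinearDisjoint (upA Q h')) :
    Algebra.Smooth k (P ⊔ Q : Subalgebra k S) := by
  have h'' : ∀ a : A, algebraMap A S a ∈ P ⊔ Q := fun a => (le_sup_left : P ≤ P ⊔ Q) (h a)
  have h1 : Algebra.Smooth k (upA P h) := Algebra.Smooth.of_equiv (upE P h)
  have h2 : Algebra.Etale (upA P h) (upA P h ⊗[A] upA Q h') := inferInstance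
  have h3 : Algebra.Smooth (upA P h) (upA P h ⊗[A] upA Q h') := inferInstance
  have h4 : Algebra.Smooth k (upA P h ⊗[A] upA Q h') := Algebra.Smooth.comp k (upA P h) _
  have h5 : Algebra.Smooth k (upA P h ⊔ upA Q h' : Subalgebra A S) :=
    Algebra.Smooth.of_equiv (hd.mulMap.restrictScalars k)
  rw [upA_sup P Q h h' h''] at h5
  exact Algebra.Smooth.of_equiv (upE (P ⊔ Q) h'').symm

end up

section coef

variable {k K : Type} [Field k] [Field K] [Algebra k K] {L : Type} [AddCommGroup L]

/-- The elements with coefficients in a subalgebra. -/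
def cf (L : Type) [AddCommGroup L] (Y : Subalgebra k K) : Subalgebra k (ML K L) where
  carrier := {f | ∀ d, f.coeff d ∈ Y}
  mul_mem' := by
    intro f g hf hg d
    rw [coeff_mul_sum]
    exact Y.sum_mem fun a _ => Y.mul_mem (hf a) (hg _)
  add_mem' := by
    intro f g hf hg d
    rw [coeff_add']
    exact Y.add_mem (hf d) (hg d)
  algebraMap_mem' r := by
    classical
    intro d
    rw [algebraMap_ML, coeff_mo]
    split_ifs
    · exact Y.algebraMap_mem r
    · exact Y.zero_mem

lemma mo_mem_cf {Y : Subalgebra k K} (d : L) {a : K} (ha : a ∈ Y) : mo d a ∈ cf L Y := by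
  classical
  intro e
  rw [coeff_mo]
  split_ifs
  · exact ha
  · exact Y.zero_mem

end coef

section main

variable {k K : Type} [Field k] [Field K] [Algebra k K] {L : Type} [AddCommGroup L]

/-- The compositum of a smooth algebra with coefficients in the coordinate ring and of `E`. -/
theorem smooth_core (E : Subalgebra k K) {n : ℕ} (y : Fin n → E)
    (hy : ((MvPolynomial.aeval y : MvPolynomial (Fin n) k →ₐ[k] E).toRingHom).Etale)
    (P : Subalgebra k (ML K L)) (hyP : ∀ j, mo 0 (y j : K) ∈ P)
    (hPc : P ≤ cf L (E.val.comp (MvPolynomial.aeval y : MvPolynomial (Fin n) k →ₐ[k] E)).range)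
    (hP : Algebra.Smooth k P) :
    Algebra.Smooth k (P ⊔ E.map (zr k K L) : Subalgebra k (ML K L)) := by
  classical
  let A := MvPolynomial (Fin n) k
  let α : A →ₐ[k] E := MvPolynomial.aeval y
  have hα : Function.Injective α := etale_inj E y hy
  let _ : Algebra A E := α.toRingHom.toAlgebra
  have _ : IsScalarTower k A E := IsScalarTower.of_algebraMap_eq fun r => (α.commutes r).symm
  let φ : A →ₐ[k] ML K L := (zr k K L).comp (E.val.comp α)
  let _ : Algebra A (ML K L) := φ.toRingHom.toAlgebra
  have _ : IsScalarTower k A (ML K L) :=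
    IsScalarTower.of_algebraMap_eq fun r => (φ.commutes r).symm
  have hφ : ∀ a : A, algebraMap A (ML K L) a = mo 0 (α a : K) := fun a => rfl
  have het : Algebra.Etale A E := hy
  have hE' : ∀ a : A, algebraMap A (ML K L) a ∈ E.map (zr k K L) := fun a =>
    ⟨(α a : K), (α a).2, rfl⟩
  have hP' : ∀ a : A, algebraMap A (ML K L) a ∈ P := by
    intro a
    have h1 : φ = MvPolynomial.aeval fun j => mo 0 (y j : K) := by
      apply MvPolynomial.algHom_ext
      intro j
      rw [MvPolynomial.aeval_X]
      change mo 0 ((MvPolynomial.aeval y (MvPolynomial.X j) : E) : K) = _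
      rw [MvPolynomial.aeval_X]
    change φ a ∈ P
    rw [h1]
    have h2 : (MvPolynomial.aeval fun j => (mo 0 (y j : K) : ML K L)).range ≤ P := by
      rw [← Algebra.adjoin_range_eq_range_aeval]
      refine Algebra.adjoin_le ?_
      rintro _ ⟨j, rfl⟩
      exact hyP j
    exact h2 ⟨a, rfl⟩
  -- the image of `E`
  let e0 : E ≃ₐ[A] upA (E.map (zr k K L)) hE' :=
    { toFun := fun b => ⟨mo 0 (b : K), (b : K), b.2, rfl⟩
      invFun := fun f => ⟨(f : ML K L).coeff 0, by
        obtain ⟨f, b, hb, rfl⟩ := f
        change (mo 0 b : ML K L).coeff 0 ∈ E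
        rw [coeff_mo_same]
        exact hb⟩
      left_inv := fun b => Subtype.ext (coeff_mo_same (0 : L) (b : K))
      right_inv := by
        rintro ⟨f, b, hb, rfl⟩
        apply Subtype.ext
        change mo 0 ((mo 0 b : ML K L).coeff 0) = mo 0 b
        rw [coeff_mo_same]
      map_mul' := fun b c => Subtype.ext (by
        change mo 0 ((b : K) * c) = mo 0 (b : K) * mo 0 (c : K)
        rw [mo_mul, add_zero])
      map_add' := fun b c => Subtype.ext (mo_add 0 (b : K) c)
      commutes' := fun a => Subtype.ext rfl }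
  have hEA : Algebra.Etale A (upA (E.map (zr k K L)) hE') := Algebra.Etale.of_equiv e0
  have hfl : Module.Flat A (upA (E.map (zr k K L)) hE') := inferInstance
  -- the free module of all elements with coefficients in the coordinate ring
  have hM' : ∀ a : A, algebraMap A (ML K L) a ∈ cf L (E.val.comp α).range := fun a => hPc (hP' a)
  have hMb : ∀ d : L, (mo d (1 : K)) ∈ upA (cf L (E.val.comp α).range) hM' := fun d =>
    mo_mem_cf d (Subalgebra.one_mem _)
  let b : L → upA (cf L (E.val.comp α).range) hM' := fun d => ⟨mo d 1, hMb d⟩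
  have hcoef : ∀ (s : Finset L) (g : L → K) (e : L),
      (∑ d ∈ s, mo d (g d) : ML K L).coeff e = if e ∈ s then g e else 0 := by
    intro s g e
    rw [coeff_sum']
    simp only [coeff_mo]
    rw [Finset.sum_ite_eq']
  have hli : LinearIndependent A b := by
    rw [linearIndependent_iff']
    intro s g hg d hd
    have h1 : (∑ i ∈ s, mo i ((α (g i) : E) : K) : ML K L) = 0 := by
      have h2 := congrArg Subtype.val hg
      rw [AddSubmonoidClass.coe_finsetSum] at h2
      refine Eq.trans ?_ h2
      refine Finset.sum_congr rfl fun i _ => ?_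
      change _ = g i • (mo i (1 : K) : ML K L)
      rw [Algebra.smul_def, hφ, mo_mul, zero_add, mul_one]
    have h2 := hcoef s (fun i => ((α (g i) : E) : K)) d
    rw [h1, if_pos hd] at h2
    have h3 : (α (g d)) = 0 := Subtype.ext h2.symm
    exact hα (h3.trans (map_zero α).symm)
  have hsp : ⊤ ≤ Submodule.span A (Set.range b) := by
    rintro ⟨f, hf⟩ -
    have h1 : ∀ d, ∃ a : A, f.coeff d = (α a : K) := fun d => by
      obtain ⟨a, ha⟩ := hf d
      exact ⟨a, ha.symm⟩
    choose g hg using h1
    have h2 : (⟨f, hf⟩ : upA (cf L (E.val.comp α).range) hM') =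
        ∑ d ∈ f.coeff.support, g d • b d := by
      apply Subtype.ext
      rw [AddSubmonoidClass.coe_finsetSum]
      change f = _
      conv_lhs => rw [eq_sum_mo f]
      refine Finset.sum_congr rfl fun d _ => ?_
      change _ = g d • (mo d (1 : K) : ML K L)
      rw [Algebra.smul_def, hφ, mo_mul, zero_add, mul_one, hg d]
    rw [h2]
    exact Submodule.sum_mem _ fun d _ => Submodule.smul_mem _ _ (Submodule.subset_span ⟨d, rfl⟩)
  let B : Module.Basis L A (upA (cf L (E.val.comp α).range) hM') := Module.Basis.mk hli hsp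
  have hdis : (upA (cf L (E.val.comp α).range) hM').LinearDisjoint
      (upA (E.map (zr k K L)) hE') := by
    refine Subalgebra.LinearDisjoint.of_basis_left _ _ B ?_
    rw [linearIndependent_iff']
    intro s g hg d hd
    have h1 : ∀ i, ∃ c : K, ((g i : upA (E.map (zr k K L)) hE') : ML K L) = mo 0 c := fun i => by
      obtain ⟨c, hc, h⟩ := (g i).2
      exact ⟨c, h.symm⟩
    choose c hc using h1
    have h2 : (∑ i ∈ s, mo i (c i) : ML K L) = 0 := by
      rw [← hg]
      refine Finset.sum_congr rfl fun i _ => ?_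
      have h3 : ((B i : upA (cf L (E.val.comp α).range) hM') : ML K L) = mo i 1 := by
        rw [show B i = b i from Module.Basis.mk_apply hli hsp i]
      change _ = ((g i : upA (E.map (zr k K L)) hE') : ML K L) *
        ((B i : upA (cf L (E.val.comp α).range) hM') : ML K L)
      rw [h3, hc, mo_mul, zero_add, mul_one]
    have h3 := hcoef s c d
    rw [h2, if_pos hd] at h3
    apply Subtype.ext
    rw [hc, ← h3]
    exact mo_zero 0
  exact smooth_sup P (E.map (zr k K L)) hP' hE' hP hEA
    (hdis.of_le_left_of_flat fun f hf => hPc hf)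

end main

end Pool.Agent.Helper49.SP
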