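import Mathlib

/-!
# Etale coordinates among given generators
-/

set_option autoImplicit false
set_option linter.unusedSectionVars false
set_option linter.style.haveILetI false

open TensorProduct

namespace Pool.Agent.Helper90.SP

/-- A smooth algebra whose differentials have the basis `d x_i` is etale over the polynomial ring. -/
theorem etale_of_basis {k T : Type} [Field k] [CommRing T] [Algebra k T] [Algebra.Smooth k T]
    {κ : Type} [Finite κ] (x : κ → T) (b : Module.Basis κ T (Ω[T⁄k]))
    (hb : ∀ i, b i = KaehlerDifferential.D k T (x i)) :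
    ((MvPolynomial.aeval x : MvPolynomial κ k →ₐ[k] T).toRingHom).Etale := by
  letI algST : Algebra (MvPolynomial κ k) T :=
    ((MvPolynomial.aeval x : MvPolynomial κ k →ₐ[k] T).toRingHom).toAlgebra
  haveI : IsScalarTower k (MvPolynomial κ k) T :=
    IsScalarTower.of_algebraMap_eq fun c =>
      ((MvPolynomial.aeval x : MvPolynomial κ k →ₐ[k] T).commutes c).symm
  have hX : ∀ i, algebraMap (MvPolynomial κ k) T (MvPolynomial.X i) = x i := fun i =>
    MvPolynomial.aeval_X x i
  let c : Module.Basis κ T (T ⊗[MvPolynomial κ k] Ω[MvPolynomial κ k⁄k]) :=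
    (KaehlerDifferential.mvPolynomialBasis k κ).baseChange T
  have hc : ∀ i, c i = 1 ⊗ₜ KaehlerDifferential.D k (MvPolynomial κ k) (MvPolynomial.X i) := by
    intro i
    rw [Module.Basis.baseChange_apply, KaehlerDifferential.mvPolynomialBasis_apply]
  have hmap : ∀ i, KaehlerDifferential.mapBaseChange k (MvPolynomial κ k) T (c i) = b i := by
    intro i
    rw [hc, KaehlerDifferential.mapBaseChange_tmul, one_smul, KaehlerDifferential.map_D, hX, hb]
  have hbij : Function.Bijective (KaehlerDifferential.mapBaseChange k (MvPolynomial κ k) T) := by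
    have h1 : KaehlerDifferential.mapBaseChange k (MvPolynomial κ k) T =
        (c.equiv b (Equiv.refl κ)).toLinearMap := by
      refine c.ext fun i => ?_
      rw [hmap, LinearEquiv.coe_coe, Module.Basis.equiv_apply]
      rfl
    rw [h1]
    exact (c.equiv b (Equiv.refl κ)).bijective
  have hH1 : Subsingleton (Algebra.H1Cotangent k T) :=
    (inferInstance : Algebra.FormallySmooth k T).subsingleton_h1Cotangent
  have hfp : Algebra.FinitePresentation (MvPolynomial κ k) T :=
    Algebra.FinitePresentation.of_restrict_scalars_finitePresentation k (MvPolynomial κ k) T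
  have hfe : Algebra.FormallyEtale (MvPolynomial κ k) T := by
    refine ⟨?_, ?_⟩
    · refine subsingleton_of_forall_eq 0 fun z => ?_
      obtain ⟨w, rfl⟩ := KaehlerDifferential.map_surjective k (MvPolynomial κ k) T z
      rw [(KaehlerDifferential.exact_mapBaseChange_map k (MvPolynomial κ k) T) w]
      exact hbij.2 w
    · refine subsingleton_of_forall_eq 0 fun z => ?_
      have h2 : Algebra.H1Cotangent.δ k (MvPolynomial κ k) T z = 0 := by
        apply hbij.1
        rw [map_zero]
        exact (Algebra.H1Cotangent.exact_δ_mapBaseChange k (MvPolynomial κ k) T _).2 ⟨z, rfl⟩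
      obtain ⟨w, rfl⟩ := (Algebra.H1Cotangent.exact_map_δ k (MvPolynomial κ k) T z).1 h2
      rw [Subsingleton.elim w 0, map_zero]
  exact (⟨hfe, hfp⟩ : Algebra.Etale (MvPolynomial κ k) T)

/-- The differentials of generators span. -/
theorem span_D_adjoin {k A : Type} [Field k] [CommRing A] [Algebra k A] (Z : Set A)
    (hZ : Algebra.adjoin k Z = ⊤) :
    Submodule.span A (Set.range fun z : Z => KaehlerDifferential.D k A (z : A)) = ⊤ := by
  rw [eq_top_iff, ← KaehlerDifferential.span_range_derivation k A, Submodule.span_le]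
  rintro _ ⟨s, rfl⟩
  have hs : s ∈ Algebra.adjoin k Z := by rw [hZ]; exact Algebra.mem_top
  induction hs using Algebra.adjoin_induction with
  | mem x hx => exact Submodule.subset_span ⟨⟨x, hx⟩, rfl⟩
  | algebraMap r =>
    rw [Derivation.map_algebraMap]
    exact Submodule.zero_mem _
  | add x y _ _ hx hy =>
    rw [map_add]
    exact Submodule.add_mem _ hx hy
  | mul x y _ _ hx hy =>
    rw [Derivation.leibniz]
    exact Submodule.add_mem _ (Submodule.smul_mem _ _ hy) (Submodule.smul_mem _ _ hx)

set_option backward.isDefEq.respectTransparency.types false in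
/-- Etale coordinates among generators, on a neighbourhood of a prime. -/
theorem exists_etale {k A : Type} [Field k] [CommRing A] [Algebra k A] [Algebra.Smooth k A]
    (Z : Set A) (hZ : Algebra.adjoin k Z = ⊤) (p : Ideal A) [p.IsPrime] :
    ∃ g, g ∉ p ∧ ∃ (κ : Type) (_ : Finite κ) (a : κ → Z),
      ((MvPolynomial.aeval (fun i => algebraMap A (Localization.Away g) (a i)) :
        MvPolynomial κ k →ₐ[k] Localization.Away g).toRingHom).Etale := by
  have hspan : Submodule.span (Localization.AtPrime p) (Set.range fun z : Z =>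
      KaehlerDifferential.map k k A (Localization.AtPrime p)
        (KaehlerDifferential.D k A (z : A))) = ⊤ := by
    have h1 := span_eq_top_of_isLocalizedModule (Localization.AtPrime p) p.primeCompl
      (KaehlerDifferential.map k k A (Localization.AtPrime p))
      (v := Set.range fun z : Z => KaehlerDifferential.D k A (z : A)) (span_D_adjoin Z hZ)
    rw [← Set.range_comp] at h1
    exact h1
  obtain ⟨κ, a, b, hb⟩ := Module.exists_basis_of_span_of_flat _ hspan
  let e : (κ →₀ A) →ₗ[A] Ω[A⁄k] :=
    Finsupp.linearCombination A fun i : κ ↦ KaehlerDifferential.D k A (a i : A)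
  let l₁ : (κ →₀ A) →ₗ[A] (κ →₀ Localization.AtPrime p) :=
    Finsupp.mapRange.linearMap (Algebra.linearMap A (Localization.AtPrime p))
  let l₂ : Ω[A⁄k] →ₗ[A] Ω[Localization.AtPrime p⁄k] :=
    KaehlerDifferential.map k k A (Localization.AtPrime p)
  let eₚ : (κ →₀ Localization.AtPrime p) →ₗ[Localization.AtPrime p] Ω[Localization.AtPrime p⁄k] :=
    IsLocalizedModule.mapExtendScalars p.primeCompl l₁ l₂ (Localization.AtPrime p) e
  have : eₚ = b.repr.symm := by
    ext i
    trans IsLocalizedModule.map p.primeCompl l₁ l₂ e <| l₁ <| Finsupp.single i 1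
    · simp [eₚ, -IsLocalizedModule.map_apply, l₁]
    · simp [l₂, e, hb]
  have heₚ : Function.Bijective eₚ := this ▸ b.repr.symm.bijective
  have : Finite κ := Module.Finite.finite_basis b
  obtain ⟨g, hg, h⟩ := Module.FinitePresentation.exists_notMem_bijective e p l₁ l₂ heₚ
  let l₁ₜ : (κ →₀ A) →ₗ[A] (κ →₀ Localization.Away g) :=
    Finsupp.mapRange.linearMap (Algebra.linearMap A _)
  let l₂ₜ : Ω[A⁄k] →ₗ[A] Ω[Localization.Away g⁄k] :=
    KaehlerDifferential.map k k A (Localization.Away g)
  rw [← IsLocalizedModule.map_bijective_iff_localizedModuleMap_bijective l₁ₜ l₂ₜ] at h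
  let eₜ' : (κ →₀ Localization.Away g) →ₗ[Localization.Away g] Ω[Localization.Away g⁄k] :=
    IsLocalizedModule.mapExtendScalars (Submonoid.powers g) l₁ₜ l₂ₜ (Localization.Away g) e
  haveI : Algebra.Smooth A (Localization.Away g) := Algebra.Smooth.of_isLocalization_Away g
  haveI : Algebra.Smooth k (Localization.Away g) := Algebra.Smooth.comp k A (Localization.Away g)
  refine ⟨g, hg, κ, inferInstance, a, ?_⟩
  refine etale_of_basis _ (.ofRepr (LinearEquiv.ofBijective eₜ' h).symm) fun i => ?_
  simp +zetaDelta [IsLocalizedModule.map_linearCombination]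

end Pool.Agent.Helper90.SP
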