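import Pool.Agent.Helper49.SP.PTL

/-!
# Powers of affine varieties over an algebraically closed field are integral

Copied from the library module `Pool/Graph/R_seed8/H920R2/Cu10`.
-/

set_option autoImplicit false
set_option linter.unusedSectionVars false
set_option linter.unusedVariables false

open MvPolynomial TensorProduct

universe u v

namespace Pool.Agent.Helper49.SP.PTL

section dom

variable {k : Type u} [Field k] [IsAlgClosed k]

/-- The points of an affine variety over an algebraically closed field are dense. -/
lemma exists_point {A : Type u} [CommRing A] [IsDomain A] [Algebra k A]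
    [Algebra.FiniteType k A] {c : A} (hc : c ≠ 0) : ∃ φ : A →ₐ[k] k, φ c ≠ 0 := by
  let D := Localization.Away c
  have hnt : Nontrivial D := by
    have : IsDomain D := IsLocalization.isDomain_localization
      (powers_le_nonZeroDivisors_of_noZeroDivisors hc)
    infer_instance
  have hftD : Algebra.FiniteType k D := by
    have h1 : Algebra.FiniteType A D :=
      IsLocalization.finiteType_of_monoid_fg (Submonoid.powers c) D
    exact Algebra.FiniteType.trans inferInstance h1
  obtain ⟨M, hM⟩ := Ideal.exists_maximal D
  let _ : Field (D ⧸ M) := Ideal.Quotient.field M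
  have hfin : Module.Finite k (D ⧸ M) := finite_of_finite_type_of_isJacobsonRing k (D ⧸ M)
  have hbij : Function.Bijective (algebraMap k (D ⧸ M)) :=
    IsAlgClosed.algebraMap_bijective_of_isIntegral
  let e : k ≃ₐ[k] (D ⧸ M) := AlgEquiv.ofBijective (Algebra.ofId k (D ⧸ M)) hbij
  let φ : A →ₐ[k] k := (e.symm : (D ⧸ M) →ₐ[k] k).comp
    ((Ideal.Quotient.mkₐ k M).comp (IsScalarTower.toAlgHom k A D))
  refine ⟨φ, ?_⟩
  have hu : IsUnit (algebraMap A D c) :=
    IsLocalization.map_units D (⟨c, Submonoid.mem_powers c⟩ : Submonoid.powers c)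
  have h1 : IsUnit (φ c) := hu.map ((e.symm : (D ⧸ M) →ₐ[k] k).comp (Ideal.Quotient.mkₐ k M))
  exact h1.ne_zero

/-- The product of two affine varieties over an algebraically closed field is integral. -/
theorem isDomain_tensor {A A' : Type u} [CommRing A] [IsDomain A] [Algebra k A]
    [Algebra.FiniteType k A] [CommRing A'] [IsDomain A'] [Algebra k A'] :
    IsDomain (A ⊗[k] A') := by
  classical
  let b := Module.Basis.ofVectorSpace k A'
  let bA := Algebra.TensorProduct.basis A b
  have hnt : Nontrivial (A ⊗[k] A') := by
    obtain ⟨φ, -⟩ := exists_point (k := k) (one_ne_zero (α := A))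
    let e : A ⊗[k] A' →ₐ[k] A' := Algebra.TensorProduct.lift ((Algebra.ofId k A').comp φ)
      (AlgHom.id k A') (fun _ _ => Commute.all _ _)
    exact e.toRingHom.domain_nontrivial
  have hnz : NoZeroDivisors (A ⊗[k] A') := by
    constructor
    intro x y hxy
    by_contra hcon
    push Not at hcon
    obtain ⟨hx, hy⟩ := hcon
    obtain ⟨i, hi⟩ : ∃ i, bA.repr x i ≠ 0 := by
      by_contra h
      push Not at h
      apply hx
      apply bA.repr.injective
      rw [map_zero]
      ext i
      exact h i
    obtain ⟨l, hl⟩ : ∃ i, bA.repr y i ≠ 0 := by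
      by_contra h
      push Not at h
      apply hy
      apply bA.repr.injective
      rw [map_zero]
      ext i
      exact h i
    obtain ⟨φ, hφ⟩ := exists_point (k := k) (mul_ne_zero hi hl)
    rw [map_mul] at hφ
    let e : A ⊗[k] A' →ₐ[k] A' := Algebra.TensorProduct.lift ((Algebra.ofId k A').comp φ)
      (AlgHom.id k A') (fun _ _ => Commute.all _ _)
    have he : ∀ z i, b.repr (e z) i = φ (bA.repr z i) := by
      intro z i
      induction z using TensorProduct.induction_on with
      | zero => simp
      | tmul a a' =>
        rw [Algebra.TensorProduct.basis_repr_tmul]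
        have h1 : e (a ⊗ₜ a') = φ a • a' := by
          rw [Algebra.TensorProduct.lift_tmul, Algebra.smul_def]
          rfl
        rw [h1, map_smul, Finsupp.smul_apply, Finsupp.smul_apply, Finsupp.mapRange_apply,
          smul_eq_mul, smul_eq_mul, map_mul, AlgHom.commutes]
        rfl
      | add z z' hz hz' =>
        rw [map_add, map_add, map_add, Finsupp.add_apply, Finsupp.add_apply, map_add, hz, hz']
    have h1 : e x * e y = 0 := by rw [← map_mul, hxy, map_zero]
    rcases mul_eq_zero.1 h1 with h2 | h2
    · apply hφ
      rw [← he x i, h2, map_zero, Finsupp.zero_apply, zero_mul]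
    · apply hφ
      rw [← he y l, h2, map_zero, Finsupp.zero_apply, mul_zero]
  exact NoZeroDivisors.to_isDomain _

/-- Over an algebraically closed field a finite family of affine varieties has an integral
product. -/
lemma exists_coprod_domain (n : ℕ) (A : Fin n → Type u) [∀ i, CommRing (A i)]
    [∀ i, IsDomain (A i)] [∀ i, Algebra k (A i)] [∀ i, Algebra.FiniteType k (A i)] :
    ∃ (B : Type u) (_ : CommRing B) (_ : Algebra k B) (j : ∀ i, A i →ₐ[k] B),
      IsDomain B ∧ IsCoprod k j := by
  induction n with
  | zero =>
    refine ⟨k, inferInstance, inferInstance, fun i => i.elim0, inferInstance, ?_, ?_⟩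
    · intro S _ _ f
      exact ⟨Algebra.ofId k S, fun i => i.elim0⟩
    · intro S _ _ g g' _
      apply AlgHom.ext
      intro r
      exact (g.commutes r).trans (g'.commutes r).symm
  | succ n ih =>
    obtain ⟨B', _, _, j', hB', hj'⟩ := ih (fun i => A i.succ)
    refine ⟨A 0 ⊗[k] B', inferInstance, inferInstance,
      Fin.cases Algebra.TensorProduct.includeLeft
        (fun i => Algebra.TensorProduct.includeRight.comp (j' i)), isDomain_tensor, ?_, ?_⟩
    · intro S _ _ f
      obtain ⟨g, hg⟩ := hj'.lift S (fun i => f i.succ)
      refine ⟨Algebra.TensorProduct.lift (f 0) g (fun _ _ => Commute.all _ _), ?_⟩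
      intro i
      refine Fin.cases ?_ ?_ i
      · intro a
        simp
      · intro i a
        simp [hg]
    · intro S _ _ g g' h
      apply Algebra.TensorProduct.ext'
      have h0 : ∀ a, g (a ⊗ₜ 1) = g' (a ⊗ₜ 1) := fun a => h 0 a
      have h1 : g.comp Algebra.TensorProduct.includeRight =
          g'.comp Algebra.TensorProduct.includeRight := by
        apply hj'.ext
        intro i a
        exact h i.succ a
      intro a b
      have h2 : (a ⊗ₜ[k] b : A 0 ⊗[k] B') = (a ⊗ₜ 1) * (1 ⊗ₜ b) := by
        rw [Algebra.TensorProduct.tmul_mul_tmul, mul_one, one_mul]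
      rw [h2, map_mul, map_mul, h0]
      congr 1
      exact congrArg (fun φ : B' →ₐ[k] S => φ b) h1

/-- Coproducts are unique. -/
lemma isDomain_of_coprod {ι : Type} {A : ι → Type u} [∀ i, CommRing (A i)] [∀ i, Algebra k (A i)]
    {B B' : Type u} [CommRing B] [Algebra k B] [CommRing B'] [Algebra k B']
    {j : ∀ i, A i →ₐ[k] B} {j' : ∀ i, A i →ₐ[k] B'} (hj : IsCoprod k j) (hj' : IsCoprod k j')
    [IsDomain B'] : IsDomain B := by
  obtain ⟨g, hg⟩ := hj.lift B' j'
  obtain ⟨g', hg'⟩ := hj'.lift B j
  have h1 : g'.comp g = AlgHom.id k B := by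
    apply hj.ext
    intro i a
    rw [AlgHom.comp_apply, hg, hg']
    rfl
  have hinj : Function.Injective g := by
    intro a b hab
    have h2 := congrArg (fun φ : B →ₐ[k] B => φ a) h1
    have h3 := congrArg (fun φ : B →ₐ[k] B => φ b) h1
    change g' (g a) = a at h2
    change g' (g b) = b at h3
    rw [← h2, ← h3, hab]
  exact hinj.isDomain

/-- The tensor product of a finite family of domains of finite type over an algebraically closed
field is a domain. -/
theorem isDomain_pi (n : ℕ) (A : Fin n → Type u) [∀ i, CommRing (A i)]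
    [∀ i, IsDomain (A i)] [∀ i, Algebra k (A i)] [∀ i, Algebra.FiniteType k (A i)] :
    IsDomain (⨂[k] i, A i) := by
  obtain ⟨B, _, _, j, _, hj⟩ := exists_coprod_domain (k := k) n A
  exact isDomain_of_coprod (isCoprod_pi (k := k) (A := A)) hj

end dom

end Pool.Agent.Helper49.SP.PTL

namespace Pool.Agent.Helper49.SP

/-- Powers of affine varieties over an algebraically closed field are integral. -/
theorem isDomain_power (k A : Type) [Field k] [IsAlgClosed k] [CommRing A] [IsDomain A]
    [Algebra k A] [Algebra.FiniteType k A] (n : ℕ) : IsDomain (⨂[k] _ : Fin n, A) :=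
  PTL.isDomain_pi (k := k) n fun _ => A

end Pool.Agent.Helper49.SP
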