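import Pool.Agent.Helper49.SP.PEreg

/-!
# Smooth domains over a field are integrally closed (in the form `hic`)
-/

set_option autoImplicit false

namespace Pool.Agent.Helper49.SP

/-- A smooth domain over a field is integrally closed in its field of fractions. -/
theorem hic_of_smooth {k K : Type} [Field k] [Field K] [Algebra k K] (B : Subalgebra k K)
    (hsm : Algebra.Smooth k B) (hfr : ∀ x : K, ∃ a ∈ B, ∃ b ∈ B, b ≠ 0 ∧ x = a / b) :
    ∀ x : K, IsIntegral B x → x ∈ B := by
  have hreg : IsRegularRing B := RG.isRegularRing_of_smooth k B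
  have hic : IsIntegrallyClosed B := RG.isIntegrallyClosed_of_regular B
  have hfrac : IsFractionRing B K := by
    refine IsFractionRing.of_field B K fun z => ?_
    obtain ⟨a, ha, b, hb, -, h⟩ := hfr z
    exact ⟨⟨a, ha⟩, ⟨b, hb⟩, h⟩
  intro x hx
  obtain ⟨y, hy⟩ := (IsIntegrallyClosed.isIntegral_iff (R := B) (K := K)).1 hx
  rw [← hy]
  exact y.2

end Pool.Agent.Helper49.SP
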