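import Pool.Agent.Helper49.SP.PT
import Pool.Agent.Helper49.SP.PTD
import Pool.Agent.Helper49.SP.PTN

/-!
# Permutations of the factors of the tensor power of an algebra
-/

set_option autoImplicit false
set_option linter.unusedSectionVars false
set_option linter.unusedVariables false

open MvPolynomial TensorProduct

namespace Pool.Agent.Helper49.SP

open Pool.Agent.W559.Mg Pool.Agent.Helper49.SP.PTL

/-- The permutation of the factors of the algebra `⨂ A`: it maps `⨂ a_i` to `⨂ a_{π i}`. -/
noncomputable def perm (k A : Type) [Field k] [CommRing A] [Algebra k A] {n : ℕ}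
    (π : Equiv.Perm (Fin n)) : (⨂[k] _ : Fin n, A) →ₐ[k] (⨂[k] _ : Fin n, A) :=
  PiTensorProduct.liftAlgHom
    ((PiTensorProduct.tprod k : MultilinearMap k (fun _ : Fin n => A) _).domDomCongr π)
    (by
      rw [MultilinearMap.domDomCongr_apply, PiTensorProduct.one_def]
      rfl)
    (by
      intro x y
      rw [MultilinearMap.domDomCongr_apply, MultilinearMap.domDomCongr_apply,
        MultilinearMap.domDomCongr_apply, PiTensorProduct.tprod_mul_tprod]
      rfl)

/-- The ring of invariants of a group of permutations of the factors. -/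
noncomputable def permInvariants (k A : Type) [Field k] [CommRing A] [Algebra k A] {n : ℕ}
    (G : Subgroup (Equiv.Perm (Fin n))) : Subalgebra k (⨂[k] _ : Fin n, A) where
  carrier := {b | ∀ π ∈ G, perm k A π b = b}
  mul_mem' := fun {a b} ha hb g hg => by rw [map_mul, ha g hg, hb g hg]
  add_mem' := fun {a b} ha hb g hg => by rw [map_add, ha g hg, hb g hg]
  algebraMap_mem' := fun c g _ => AlgHom.commutes _ _

section pm

variable {k A : Type} [Field k] [CommRing A] [Algebra k A] {n : ℕ}

/-- The inclusion of a factor. -/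
noncomputable abbrev sg (k A : Type) [Field k] [CommRing A] [Algebra k A] {n : ℕ} (i : Fin n) :
    A →ₐ[k] (⨂[k] _ : Fin n, A) :=
  PiTensorProduct.singleAlgHom (R := k) (A := fun _ : Fin n => A) i

lemma perm_tprod (π : Equiv.Perm (Fin n)) (v : Fin n → A) :
    perm k A π (PiTensorProduct.tprod k v) = PiTensorProduct.tprod k fun j => v (π j) := by
  have h : perm k A π (PiTensorProduct.tprod k v) = PiTensorProduct.lift
      ((PiTensorProduct.tprod k : MultilinearMap k (fun _ : Fin n => A) _).domDomCongr π)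
      (PiTensorProduct.tprod k v) := rfl
  rw [h, PiTensorProduct.lift.tprod, MultilinearMap.domDomCongr_apply]

lemma sg_eq (i : Fin n) (a : A) :
    sg k A i a = PiTensorProduct.tprod k (Pi.mulSingle (M := fun _ : Fin n => A) i a) := rfl

lemma perm_sg (π : Equiv.Perm (Fin n)) (i : Fin n) (a : A) :
    perm k A π (sg k A i a) = sg k A (π⁻¹ i) a := by
  rw [sg_eq, sg_eq, perm_tprod]
  congr 1
  funext j
  by_cases h : j = π⁻¹ i
  · subst h
    have h2 : π (π⁻¹ i) = i := by simp
    rw [h2, Pi.mulSingle_eq_same, Pi.mulSingle_eq_same]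
  · have h2 : π j ≠ i := by
      intro h3
      apply h
      rw [← h3]
      simp
    rw [Pi.mulSingle_eq_of_ne h2, Pi.mulSingle_eq_of_ne h]

lemma ten_ext {S : Type} [CommRing S] [Algebra k S] {f g : (⨂[k] _ : Fin n, A) →ₐ[k] S}
    (h : ∀ i a, f (sg k A i a) = g (sg k A i a)) : f = g := by
  classical
  exact (isCoprod_pi (k := k) (A := fun _ : Fin n => A)).ext S f g h

lemma perm_perm (π σ : Equiv.Perm (Fin n)) (b : ⨂[k] _ : Fin n, A) :
    perm k A π (perm k A σ b) = perm k A (σ * π) b := by
  have h : (perm k A π).comp (perm k A σ) = perm k A (σ * π) := by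
    apply ten_ext
    intro i a
    rw [AlgHom.comp_apply, perm_sg, perm_sg, perm_sg, mul_inv_rev]
    rfl
  exact congrArg (fun f : (⨂[k] _ : Fin n, A) →ₐ[k] (⨂[k] _ : Fin n, A) => f b) h

lemma perm_one (b : ⨂[k] _ : Fin n, A) : perm k A 1 b = b := by
  have h : perm k A 1 = AlgHom.id k (⨂[k] _ : Fin n, A) := by
    apply ten_ext
    intro i a
    rw [perm_sg, inv_one]
    rfl
  exact congrArg (fun f : (⨂[k] _ : Fin n, A) →ₐ[k] (⨂[k] _ : Fin n, A) => f b) h

/-- The action of the permutations on the tensor power: `a` in the factor `i` is sent to `a` in the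
factor `π i`. -/
noncomputable def PEq (k A : Type) [Field k] [CommRing A] [Algebra k A] (n : ℕ) :
    Equiv.Perm (Fin n) →* ((⨂[k] _ : Fin n, A) ≃ₐ[k] (⨂[k] _ : Fin n, A)) where
  toFun π := AlgEquiv.ofAlgHom (perm k A π⁻¹) (perm k A π)
    (AlgHom.ext fun b => by
      change perm k A π⁻¹ (perm k A π b) = b
      rw [perm_perm, mul_inv_cancel, perm_one])
    (AlgHom.ext fun b => by
      change perm k A π (perm k A π⁻¹ b) = b
      rw [perm_perm, inv_mul_cancel, perm_one])
  map_one' := AlgEquiv.ext fun b => by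
    change perm k A 1⁻¹ b = b
    rw [inv_one, perm_one]
  map_mul' π σ := AlgEquiv.ext fun b => by
    change perm k A (π * σ)⁻¹ b = perm k A π⁻¹ (perm k A σ⁻¹ b)
    rw [perm_perm, mul_inv_rev]

lemma PEq_apply (π : Equiv.Perm (Fin n)) (b : ⨂[k] _ : Fin n, A) :
    PEq k A n π b = perm k A π⁻¹ b := rfl

lemma PEq_sg (π : Equiv.Perm (Fin n)) (i : Fin n) (a : A) :
    PEq k A n π (sg k A i a) = sg k A (π i) a := by
  rw [PEq_apply, perm_sg, inv_inv]

/-- The invariants are of finite type. -/
theorem ft_perm [Nontrivial (⨂[k] _ : Fin n, A)] [Algebra.FiniteType k A]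
    (G : Subgroup (Equiv.Perm (Fin n))) : Algebra.FiniteType k (permInvariants k A G) := by
  classical
  have hft : Algebra.FiniteType k (⨂[k] _ : Fin n, A) :=
    coprod_finiteType (isCoprod_pi (k := k) (A := fun _ : Fin n => A)) fun i => inferInstance
  let ρr : G →* ((⨂[k] _ : Fin n, A) ≃+* (⨂[k] _ : Fin n, A)) :=
    { toFun := fun g => (PEq k A n g).toRingEquiv
      map_one' := by
        change (PEq k A n 1).toRingEquiv = 1
        rw [map_one]
        rfl
      map_mul' := fun g h => by
        change (PEq k A n (g * h)).toRingEquiv = _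
        rw [map_mul]
        rfl }
  refine Pool.Agent.Helper46.AQ.ft_inv (A := permInvariants k A G) (C := ⨂[k] _ : Fin n, A)
    Subtype.val_injective ρr ?_
  intro x hx
  refine ⟨⟨x, ?_⟩, rfl⟩
  intro π hπ
  have h1 := hx ⟨π⁻¹, G.inv_mem hπ⟩
  change perm k A (π⁻¹)⁻¹ x = x at h1
  rwa [inv_inv] at h1

end pm

section frac

variable {k A : Type} [Field k] [CommRing A] [IsDomain A] [Algebra k A] {n : ℕ}
  {L : Type} [Field L] [Algebra k L]

/-- The tensor power of the fraction field embeds. -/
theorem inj_frac (K : Type) [Field K] [Algebra k K] [Algebra A K] [IsScalarTower k A K]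
    [IsFractionRing A K] (gB : (⨂[k] _ : Fin n, A) →ₐ[k] L) (hinj : Function.Injective gB)
    (e : Fin n → K →ₐ[k] L)
    (he : ∀ i a, e i (algebraMap A K a) =
      gB (PiTensorProduct.singleAlgHom (R := k) (A := fun _ : Fin n => A) i a))
    (g : (⨂[k] _ : Fin n, K) →ₐ[k] L)
    (hg : ∀ i x, g (PiTensorProduct.singleAlgHom (R := k) (A := fun _ : Fin n => K) i x) =
      e i x) : Function.Injective g := by
  classical
  have hjA := isCoprod_pi (k := k) (A := fun _ : Fin n => A)
  have hjK := isCoprod_pi (k := k) (A := fun _ : Fin n => K)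
  obtain ⟨φ, hφ⟩ := hjA.lift (⨂[k] _ : Fin n, K) fun i =>
    (PiTensorProduct.singleAlgHom (R := k) (A := fun _ : Fin n => K) i).comp
      (IsScalarTower.toAlgHom k A K)
  have hφ' : ∀ i a, φ (PiTensorProduct.singleAlgHom (R := k) (A := fun _ : Fin n => A) i a) =
      PiTensorProduct.singleAlgHom (R := k) (A := fun _ : Fin n => K) i (algebraMap A K a) := hφ
  have hgφ : ∀ w, g (φ w) = gB w := by
    have h1 : g.comp φ = gB := by
      apply hjA.ext
      intro i a
      rw [AlgHom.comp_apply, hφ', hg, he]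
    intro w
    exact congrArg (fun f : (⨂[k] _ : Fin n, A) →ₐ[k] L => f w) h1
  let sK := fun i => PiTensorProduct.singleAlgHom (R := k) (A := fun _ : Fin n => K) i
  let U : A → (⨂[k] _ : Fin n, K) := fun a => ∏ i, sK i (algebraMap A K a)
  have hUmul : ∀ a b, U (a * b) = U a * U b := by
    intro a b
    change ∏ i, sK i (algebraMap A K (a * b)) = (∏ i, sK i (algebraMap A K a)) *
      ∏ i, sK i (algebraMap A K b)
    rw [← Finset.prod_mul_distrib]
    exact Finset.prod_congr rfl fun i _ => by rw [map_mul, map_mul]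
  have hUφ : ∀ a, ∃ w, U a = φ w := by
    intro a
    refine ⟨∏ i, PiTensorProduct.singleAlgHom (R := k) (A := fun _ : Fin n => A) i a, ?_⟩
    rw [map_prod]
    exact Finset.prod_congr rfl fun i _ => (hφ' i a).symm
  have hUu : ∀ a, a ≠ 0 → IsUnit (U a) := by
    intro a ha
    have ha' : algebraMap A K a ≠ 0 := by
      intro h
      exact ha ((IsFractionRing.injective A K) (by rw [h, map_zero]))
    refine IsUnit.of_mul_eq_one (∏ i, sK i (algebraMap A K a)⁻¹) ?_
    change (∏ i, sK i (algebraMap A K a)) * ∏ i, sK i (algebraMap A K a)⁻¹ = 1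
    rw [← Finset.prod_mul_distrib]
    have h1 : ∀ i, sK i (algebraMap A K a) * sK i (algebraMap A K a)⁻¹ = 1 := fun i => by
      rw [← map_mul, mul_inv_cancel₀ ha', map_one]
    rw [Finset.prod_congr rfl fun i _ => h1 i, Finset.prod_const_one]
  have hden : ∀ z : ⨂[k] _ : Fin n, K, ∃ a : A, a ≠ 0 ∧ ∃ w, U a * z = φ w := by
    intro z
    have h2 : z ∈ Algebra.adjoin k (⋃ i, Set.range
        (PiTensorProduct.singleAlgHom (R := k) (A := fun _ : Fin n => K) i)) := by
      rw [coprod_adjoin hjK]; trivial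
    induction h2 using Algebra.adjoin_induction with
    | mem x hx =>
      obtain ⟨i, y, rfl⟩ := Set.mem_iUnion.1 hx
      obtain ⟨b, c, hc, rfl⟩ := IsFractionRing.div_surjective (A := A) y
      have hc0 : c ≠ 0 := nonZeroDivisors.ne_zero hc
      have hc' : algebraMap A K c ≠ 0 := by
        intro h
        exact hc0 ((IsFractionRing.injective A K) (by rw [h, map_zero]))
      refine ⟨c, hc0, PiTensorProduct.singleAlgHom (R := k) (A := fun _ : Fin n => A) i b *
        ∏ l ∈ Finset.univ.erase i,
          PiTensorProduct.singleAlgHom (R := k) (A := fun _ : Fin n => A) l c, ?_⟩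
      change (∏ i, sK i (algebraMap A K c)) * sK i (algebraMap A K b / algebraMap A K c) = _
      rw [← Finset.mul_prod_erase _ _ (Finset.mem_univ i), map_mul, map_prod, hφ']
      have h3 : sK i (algebraMap A K c) * (∏ x ∈ Finset.univ.erase i, sK x (algebraMap A K c)) *
          sK i (algebraMap A K b / algebraMap A K c) =
          (sK i (algebraMap A K c) * sK i (algebraMap A K b / algebraMap A K c)) *
            ∏ x ∈ Finset.univ.erase i, sK x (algebraMap A K c) := by ring
      rw [h3, ← map_mul, mul_div_cancel₀ _ hc']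
      congr 1
      exact Finset.prod_congr rfl fun l _ => (hφ' l c).symm
    | algebraMap r =>
      refine ⟨1, one_ne_zero, ?_⟩
      obtain ⟨w, hw⟩ := hUφ 1
      refine ⟨w * algebraMap k _ r, ?_⟩
      rw [hw, map_mul, AlgHom.commutes]
    | add x y _ _ hx hy =>
      obtain ⟨a, ha, w, hw⟩ := hx
      obtain ⟨b, hb, v, hv⟩ := hy
      obtain ⟨wa, hwa⟩ := hUφ a
      obtain ⟨wb, hwb⟩ := hUφ b
      refine ⟨a * b, mul_ne_zero ha hb, wb * w + wa * v, ?_⟩
      rw [hUmul, map_add, map_mul, map_mul, ← hw, ← hv, ← hwa, ← hwb]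
      ring
    | mul x y _ _ hx hy =>
      obtain ⟨a, ha, w, hw⟩ := hx
      obtain ⟨b, hb, v, hv⟩ := hy
      refine ⟨a * b, mul_ne_zero ha hb, w * v, ?_⟩
      rw [hUmul, map_mul, ← hw, ← hv]
      ring
  rw [injective_iff_map_eq_zero]
  intro z hz
  obtain ⟨a, ha, w, hw⟩ := hden z
  have h1 : gB w = 0 := by rw [← hgφ, ← hw, map_mul, hz, mul_zero]
  have h2 : w = 0 := hinj (by rw [h1, map_zero])
  rw [h2, map_zero] at hw
  exact (hUu a ha).mul_right_eq_zero.1 hw

end frac

section cs

variable {k : Type} [Field k] {ι : Type} [Fintype ι] {A : ι → Type} [∀ i, CommRing (A i)]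
    [∀ i, Algebra k (A i)] {B : Type} [CommRing B] [Algebra k B]
    {j : ∀ i, A i →ₐ[k] B} (hj : IsCoprod k j)

include hj in
/-- A coproduct of formally smooth algebras is formally smooth. -/
lemma coprod_formallySmooth (hA : ∀ i, Algebra.FormallySmooth k (A i)) :
    Algebra.FormallySmooth k B := by
  classical
  refine Algebra.FormallySmooth.of_comp_surjective (R := k) (A := B) ?_
  intro S _ _ I hI g
  have h1 : ∀ i, ∃ h : A i →ₐ[k] S, (Ideal.Quotient.mkₐ k I).comp h = g.comp (j i) := by
    intro i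
    have _ := hA i
    exact Algebra.FormallySmooth.comp_surjective k (A i) I hI (g.comp (j i))
  choose h hh using h1
  obtain ⟨H, hH⟩ := hj.lift S h
  refine ⟨H, ?_⟩
  apply hj.ext
  intro i a
  rw [AlgHom.comp_apply, hH]
  exact congrArg (fun φ : A i →ₐ[k] S ⧸ I => φ a) (hh i)

/-- The factors of a tensor product embed. -/
theorem single_injective [DecidableEq ι] [∀ i, Nontrivial (A i)] (i : ι) :
    Function.Injective (PiTensorProduct.singleAlgHom (R := k) (A := A) i) := by
  have h1 : ∀ l, ∃ φ : A l →ₗ[k] k, φ 1 = 1 := by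
    intro l
    have hinj : LinearMap.ker (LinearMap.toSpanSingleton k (A l) 1) = ⊥ := by
      rw [LinearMap.ker_eq_bot']
      intro r hr
      rw [LinearMap.toSpanSingleton_apply, ← Algebra.algebraMap_eq_smul_one] at hr
      exact (map_eq_zero_iff _ (algebraMap k (A l)).injective).1 hr
    obtain ⟨φ, hφ⟩ := LinearMap.exists_leftInverse_of_injective _ hinj
    refine ⟨φ, ?_⟩
    have h2 := congrArg (fun f : k →ₗ[k] k => f 1) hφ
    simpa using h2
  choose φ hφ using h1
  let Lm : ∀ l, A l →ₗ[k] A i := fun l =>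
    if h : l = i then (h ▸ LinearMap.id) else (Algebra.linearMap k (A i)).comp (φ l)
  have hLi : ∀ a : A i, Lm i a = a := by
    intro a
    simp only [Lm, dif_pos]
    rfl
  have hLl : ∀ l, l ≠ i → Lm l 1 = 1 := by
    intro l hl
    simp only [Lm, dif_neg hl]
    change algebraMap k (A i) (φ l 1) = 1
    rw [hφ, map_one]
  let F : MultilinearMap k A (A i) := (MultilinearMap.mkPiAlgebra k ι (A i)).compLinearMap Lm
  have hF : ∀ x, F x = ∏ l, Lm l (x l) := fun x => by
    change MultilinearMap.mkPiAlgebra k ι (A i) (fun l => Lm l (x l)) = _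
    rw [MultilinearMap.mkPiAlgebra_apply]
  have hkey : ∀ a : A i, PiTensorProduct.lift F
      (PiTensorProduct.singleAlgHom (R := k) (A := A) i a) = a := by
    intro a
    change PiTensorProduct.lift F (PiTensorProduct.tprod k (MonoidHom.mulSingle _ i a)) = _
    rw [PiTensorProduct.lift.tprod, hF, Finset.prod_eq_single i]
    · rw [MonoidHom.mulSingle_apply, Pi.mulSingle_eq_same, hLi]
    · intro l _ hl
      rw [MonoidHom.mulSingle_apply, Pi.mulSingle_eq_of_ne hl, hLl l hl]
    · intro h
      exact absurd (Finset.mem_univ i) h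
  intro a b hab
  rw [← hkey a, ← hkey b, hab]

end cs

end Pool.Agent.Helper49.SP
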