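import Mathlib

/-!
# Coproducts of algebras and etale coordinates on products

Adapted from the library modules `Pool/Graph/R_seed8/H920R2/Cu4`, `Cu10`, `Cv4`, `Cw6`, `Cy2` and `Cy5`.
-/

set_option autoImplicit false
set_option linter.unusedSectionVars false
set_option linter.unusedVariables false

open MvPolynomial TensorProduct

universe u v

namespace Pool.Agent.Helper49.SP.PTL

/-- A coproduct of commutative algebras. -/
structure IsCoprod (k : Type u) [Field k] {ι : Type} {A : ι → Type u} [∀ i, CommRing (A i)]
    [∀ i, Algebra k (A i)] {B : Type u} [CommRing B] [Algebra k B]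
    (j : ∀ i, A i →ₐ[k] B) : Prop where
  lift : ∀ (S : Type u) [CommRing S] [Algebra k S] (f : ∀ i, A i →ₐ[k] S),
    ∃ g : B →ₐ[k] S, ∀ i a, g (j i a) = f i a
  ext : ∀ (S : Type u) [CommRing S] [Algebra k S] (g g' : B →ₐ[k] S),
    (∀ i a, g (j i a) = g' (j i a)) → g = g'


section prod

variable {k : Type u} [Field k] {ι : Type} [Fintype ι] {A : ι → Type u} [∀ i, CommRing (A i)]
    [∀ i, Algebra k (A i)] {B : Type u} [CommRing B] [Algebra k B]
    {j : ∀ i, A i →ₐ[k] B} (hj : IsCoprod k j)

include hj in
/-- A coproduct is generated by its factors. -/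
lemma coprod_adjoin : Algebra.adjoin k (⋃ i, Set.range (j i)) = ⊤ := by
  set B' := Algebra.adjoin k (⋃ i, Set.range (j i)) with hB'
  have hmem : ∀ i a, j i a ∈ B' := fun i a =>
    Algebra.subset_adjoin (Set.mem_iUnion.2 ⟨i, a, rfl⟩)
  obtain ⟨g, hg⟩ := hj.lift B' fun i => (j i).codRestrict B' (hmem i)
  have h1 : B'.val.comp g = AlgHom.id k B := by
    apply hj.ext
    intro i a
    rw [AlgHom.comp_apply, hg]
    rfl
  rw [eq_top_iff]
  intro b _
  have h2 := congrArg (fun φ : B →ₐ[k] B => φ b) h1
  change ((g b : B') : B) = b at h2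
  rw [← h2]
  exact (g b).2

include hj in
lemma coprod_finiteType (hA : ∀ i, Algebra.FiniteType k (A i)) : Algebra.FiniteType k B := by
  classical
  choose s hs using fun i => (hA i).1
  constructor
  refine ⟨Finset.univ.biUnion fun i => (s i).image (j i), ?_⟩
  rw [eq_top_iff, ← coprod_adjoin hj, Algebra.adjoin_le_iff]
  intro b hb
  obtain ⟨i, a, rfl⟩ := Set.mem_iUnion.1 hb
  have h1 : (Algebra.adjoin k (s i : Set (A i))).map (j i) ≤
      Algebra.adjoin k ((Finset.univ.biUnion fun i => (s i).image (j i) : Finset B) : Set B) := by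
    rw [AlgHom.map_adjoin]
    apply Algebra.adjoin_mono
    rintro _ ⟨x, hx, rfl⟩
    rw [Finset.mem_coe, Finset.mem_biUnion]
    exact ⟨i, Finset.mem_univ i, Finset.mem_image.2 ⟨x, hx, rfl⟩⟩
  apply h1
  rw [hs]
  exact ⟨a, trivial, rfl⟩

end prod

section pi

variable {k : Type u} [Field k] {ι : Type} [Fintype ι] [DecidableEq ι]
  {A : ι → Type u} [∀ i, CommRing (A i)] [∀ i, Algebra k (A i)]

/-- The tensor product of a finite family of algebras is their coproduct. -/
theorem isCoprod_pi : IsCoprod k (fun i => PiTensorProduct.singleAlgHom (R := k) (A := A) i) := by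
  constructor
  · intro S _ _ f
    let F : MultilinearMap k A S :=
      (MultilinearMap.mkPiAlgebra k ι S).compLinearMap fun i => (f i).toLinearMap
    have hF : ∀ x, F x = ∏ i, f i (x i) := fun x => by
      change MultilinearMap.mkPiAlgebra k ι S (fun i => f i (x i)) = _
      rw [MultilinearMap.mkPiAlgebra_apply]
    refine ⟨PiTensorProduct.liftAlgHom F ?_ ?_, ?_⟩
    · rw [hF]
      simp
    · intro x y
      rw [hF, hF, hF, ← Finset.prod_mul_distrib]
      refine Finset.prod_congr rfl fun i _ => ?_
      rw [Pi.mul_apply, map_mul]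
    · intro i a
      change PiTensorProduct.lift F (PiTensorProduct.tprod k (MonoidHom.mulSingle _ i a)) = _
      rw [PiTensorProduct.lift.tprod, hF, Finset.prod_eq_single i]
      · rw [MonoidHom.mulSingle_apply, Pi.mulSingle_eq_same]
      · intro l _ hl
        rw [MonoidHom.mulSingle_apply, Pi.mulSingle_eq_of_ne hl, map_one]
      · intro h
        exact absurd (Finset.mem_univ i) h
  · intro S _ _ g g' h
    apply PiTensorProduct.algHom_ext
    intro i
    apply AlgHom.ext
    intro a
    exact h i a

end pi

section tp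

variable {k : Type u} [Field k] {n : ℕ} {A : Fin n → Type u} [∀ i, CommRing (A i)]
  [∀ i, Algebra k (A i)]

lemma tprod_eq_prod (a : ∀ i, A i) : PiTensorProduct.tprod k a =
    ∏ i, PiTensorProduct.singleAlgHom (R := k) (A := A) i (a i) := by
  classical
  have h1 : ∀ s : Finset (Fin n), (∏ i ∈ s,
      PiTensorProduct.singleAlgHom (R := k) (A := A) i (a i)) =
      PiTensorProduct.tprod k (fun i => if i ∈ s then a i else 1) := by
    intro s
    induction s using Finset.induction_on with
    | empty =>
      simp only [Finset.prod_empty, Finset.notMem_empty, if_false]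
      rfl
    | insert i s hi ih =>
      rw [Finset.prod_insert hi, ih]
      change PiTensorProduct.tprod k (MonoidHom.mulSingle _ i (a i)) * _ = _
      rw [PiTensorProduct.tprod_mul_tprod]
      congr 1
      funext l
      rw [Pi.mul_apply, MonoidHom.mulSingle_apply]
      by_cases hl : l = i
      · subst hl
        rw [Pi.mulSingle_eq_same, if_neg hi, if_pos (Finset.mem_insert_self _ _), mul_one]
      · rw [Pi.mulSingle_eq_of_ne hl, one_mul]
        by_cases hls : l ∈ s
        · rw [if_pos hls, if_pos (Finset.mem_insert_of_mem hls)]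
        · rw [if_neg hls, if_neg (fun h => hls ((Finset.mem_insert.1 h).resolve_left hl))]
  rw [h1]
  congr 1
  funext i
  rw [if_pos (Finset.mem_univ i)]

end tp

section pi2

variable {k : Type u} [Field k] {n : ℕ} {K : Fin n → Type u} [∀ i, CommRing (K i)]
  [∀ i, Algebra k (K i)] (C : ∀ i, Subalgebra k (K i))

/-- Tensor products of subalgebras embed. -/
theorem exists_pi_incl : ∃ φ : (⨂[k] i, C i) →ₐ[k] (⨂[k] i, K i), Function.Injective φ ∧
    ∀ i (x : C i), φ (PiTensorProduct.singleAlgHom (R := k) (A := fun i => C i) i x) =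
      PiTensorProduct.singleAlgHom (R := k) (A := K) i (x : K i) := by
  classical
  obtain ⟨φ, hφ⟩ := (isCoprod_pi (k := k) (A := fun i => C i)).lift (⨂[k] i, K i)
    fun i => (PiTensorProduct.singleAlgHom (R := k) (A := K) i).comp (C i).val
  have hφ' : ∀ i (x : C i), φ (PiTensorProduct.singleAlgHom (R := k) (A := fun i => C i) i x) =
      PiTensorProduct.singleAlgHom (R := k) (A := K) i (x : K i) := hφ
  have hr : ∀ i, ∃ r : K i →ₗ[k] C i, r ∘ₗ (C i).val.toLinearMap = LinearMap.id := fun i =>
    LinearMap.exists_leftInverse_of_injective _ (LinearMap.ker_eq_bot.2 Subtype.val_injective)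
  choose r hr using hr
  have hφt : ∀ x : ∀ i, C i, φ (PiTensorProduct.tprod k x) =
      PiTensorProduct.tprod k fun i => (x i : K i) := by
    intro x
    rw [tprod_eq_prod, map_prod, tprod_eq_prod]
    exact Finset.prod_congr rfl fun i _ => hφ' i _
  have hid : (PiTensorProduct.map r) ∘ₗ φ.toLinearMap = LinearMap.id := by
    apply PiTensorProduct.ext
    ext x
    change PiTensorProduct.map r (φ (PiTensorProduct.tprod k x)) = PiTensorProduct.tprod k x
    rw [hφt, PiTensorProduct.map_tprod]
    congr 1
    funext i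
    exact congrArg (fun f : C i →ₗ[k] C i => f (x i)) (hr i)
  refine ⟨φ, ?_, hφ'⟩
  intro a b hab
  have h1 : ∀ a, PiTensorProduct.map r (φ a) = a := fun a =>
    congrArg (fun f : (⨂[k] i, C i) →ₗ[k] (⨂[k] i, C i) => f a) hid
  rw [← h1 a, ← h1 b, hab]

end pi2


section many

variable {k D : Type u} [Field k] [CommRing D] [Algebra k D] {ι : Type} {x : ι → D}

/-- Unique lifting for an algebra with étale coordinates. -/
lemma exists_unique_lift'
    (hx : ((aeval x : MvPolynomial ι k →ₐ[k] D).toRingHom).Etale) {S : Type u} [CommRing S]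
    [Algebra k S] (I : Ideal S) (hI : I ^ 2 = ⊥) (c : ι → S) :
    (∀ g : D →ₐ[k] S ⧸ I, (∀ i, g (x i) = Ideal.Quotient.mk I (c i)) → ∃ h : D →ₐ[k] S,
      (∀ i, h (x i) = c i) ∧ ∀ y, Ideal.Quotient.mk I (h y) = g y) ∧
    ∀ h h' : D →ₐ[k] S, (∀ i, h (x i) = c i) → (∀ i, h' (x i) = c i) →
      (∀ y, Ideal.Quotient.mk I (h y) = Ideal.Quotient.mk I (h' y)) → h = h' := by
  let P := MvPolynomial ι k
  let _ : Algebra P D := (aeval x : MvPolynomial ι k →ₐ[k] D).toRingHom.toAlgebra
  have hE : Algebra.Etale P D := hx
  have hD : ∀ F, algebraMap P D F = aeval x F := fun F => rfl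
  have _ : IsScalarTower k P D := IsScalarTower.of_algebraMap_eq fun r => by
    rw [hD, MvPolynomial.algebraMap_eq, aeval_C]
  let _ : Algebra P S := (aeval c : MvPolynomial ι k →ₐ[k] S).toRingHom.toAlgebra
  have hS : ∀ F, algebraMap P S F = aeval c F := fun F => rfl
  have _ : IsScalarTower k P S := IsScalarTower.of_algebraMap_eq fun r => by
    rw [hS, MvPolynomial.algebraMap_eq, aeval_C]
  have hbij := Algebra.FormallyEtale.comp_bijective P D I hI
  have hcomm : ∀ (T : Type u) [CommRing T] [Algebra k T] (h : D →ₐ[k] T) (F : P),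
      h (algebraMap P D F) = aeval (fun i => h (x i)) F := by
    intro T _ _ h F
    rw [hD]
    have h1 : h.comp (aeval x : MvPolynomial ι k →ₐ[k] D) = aeval fun i => h (x i) := by
      apply MvPolynomial.algHom_ext
      intro i
      rw [AlgHom.comp_apply, aeval_X, aeval_X]
    exact congrArg (fun φ : MvPolynomial ι k →ₐ[k] T => φ F) h1
  have hQ : ∀ F, algebraMap P (S ⧸ I) F =
      aeval (fun i => Ideal.Quotient.mk I (c i)) F := by
    intro F
    change Ideal.Quotient.mk I (algebraMap P S F) = _
    rw [hS]
    have h1 : (Ideal.Quotient.mkₐ k I).comp (aeval c : MvPolynomial ι k →ₐ[k] S) =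
        aeval fun i => Ideal.Quotient.mk I (c i) := by
      apply MvPolynomial.algHom_ext
      intro i
      rw [AlgHom.comp_apply, aeval_X, aeval_X]
      rfl
    exact congrArg (fun φ : MvPolynomial ι k →ₐ[k] S ⧸ I => φ F) h1
  constructor
  · intro g hg
    let g' : D →ₐ[P] S ⧸ I :=
      { toRingHom := g.toRingHom
        commutes' := fun F => by
          change g (algebraMap P D F) = _
          rw [hcomm, hQ]
          congr 2
          funext i
          exact hg i }
    obtain ⟨h', hh'⟩ := hbij.2 g'
    let h : D →ₐ[k] S := h'.restrictScalars k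
    refine ⟨h, ?_, ?_⟩
    · intro i
      have h1 := h'.commutes (X i)
      rw [hD, hS, aeval_X, aeval_X] at h1
      exact h1
    · intro x
      have h1 := congrArg (fun φ : D →ₐ[P] S ⧸ I => φ x) hh'
      exact h1
  · intro h h' ht1 ht2 hx
    let h1 : D →ₐ[P] S :=
      { toRingHom := h.toRingHom
        commutes' := fun F => by
          change h (algebraMap P D F) = _
          rw [hcomm, hS]
          congr 2
          funext i
          exact ht1 i }
    let h2 : D →ₐ[P] S :=
      { toRingHom := h'.toRingHom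
        commutes' := fun F => by
          change h' (algebraMap P D F) = _
          rw [hcomm, hS]
          congr 2
          funext i
          exact ht2 i }
    have h3 : h1 = h2 := by
      apply hbij.1
      apply AlgHom.ext
      intro x
      exact hx x
    apply AlgHom.ext
    intro x
    exact congrArg (fun φ : D →ₐ[P] S => φ x) h3

end many

section transport

variable {k : Type u} [Field k] {ι : Type} {A : ι → Type u} [∀ i, CommRing (A i)]
  [∀ i, Algebra k (A i)] {B B' : Type u} [CommRing B] [Algebra k B] [CommRing B'] [Algebra k B']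

/-- Coproducts are invariant under isomorphism. -/
lemma isCoprod_congr {j : ∀ i, A i →ₐ[k] B} (hj : IsCoprod k j) (E : B ≃ₐ[k] B')
    {j' : ∀ i, A i →ₐ[k] B'} (h : ∀ i a, j' i a = E (j i a)) : IsCoprod k j' := by
  constructor
  · intro S _ _ f
    obtain ⟨g, hg⟩ := hj.lift S f
    refine ⟨g.comp (E.symm : B' →ₐ[k] B), ?_⟩
    intro i a
    rw [h]
    change g (E.symm (E (j i a))) = _
    rw [E.symm_apply_apply, hg]
  · intro S _ _ g g' hgg
    have h1 : g.comp (E : B →ₐ[k] B') = g'.comp (E : B →ₐ[k] B') := by
      apply hj.ext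
      intro i a
      have h2 := hgg i a
      rw [h] at h2
      exact h2
    apply AlgHom.ext
    intro x
    have h2 := congrArg (fun φ : B →ₐ[k] S => φ (E.symm x)) h1
    change g (E (E.symm x)) = g' (E (E.symm x)) at h2
    rw [E.apply_symm_apply] at h2
    exact h2

end transport

section et

variable {k : Type u} [Field k] {ι : Type} [Fintype ι] {A : ι → Type u} [∀ i, CommRing (A i)]
    [∀ i, Algebra k (A i)] {B : Type u} [CommRing B] [Algebra k B]
    {j : ∀ i, A i →ₐ[k] B} (hj : IsCoprod k j)

include hj in
/-- Étale coordinates on a product. -/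
theorem coprod_etale' (hft : ∀ i, Algebra.FiniteType k (A i)) {κ : ι → Type} [∀ i, Finite (κ i)]
    (x : ∀ i, κ i → A i)
    (hx : ∀ i, ((aeval (x i) : MvPolynomial (κ i) k →ₐ[k] A i).toRingHom).Etale) :
    ((aeval (fun c : Σ i, κ i => j c.1 (x c.1 c.2)) :
      MvPolynomial (Σ i, κ i) k →ₐ[k] B).toRingHom).Etale := by
  classical
  let P := MvPolynomial (Σ i, κ i) k
  let _ : Algebra P B := (aeval (fun c : Σ i, κ i => j c.1 (x c.1 c.2)) :
      MvPolynomial (Σ i, κ i) k →ₐ[k] B).toRingHom.toAlgebra
  have hPB : ∀ q : P, algebraMap P B q = aeval (fun c : Σ i, κ i => j c.1 (x c.1 c.2)) q :=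
    fun q => rfl
  have _ : IsScalarTower k P B := IsScalarTower.of_algebraMap_eq fun r => by
    rw [hPB, MvPolynomial.algebraMap_eq, aeval_C]
  have hftB : Algebra.FiniteType k B := coprod_finiteType hj hft
  have hfp : Algebra.FinitePresentation P B := by
    have _ : Algebra.FiniteType P B := Algebra.FiniteType.of_restrictScalars_finiteType k P B
    exact Algebra.FinitePresentation.of_finiteType.1 inferInstance
  have hfe : Algebra.FormallyEtale P B := by
    rw [Algebra.FormallyEtale.iff_comp_bijective]
    intro S _ _ I hI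
    let _ : Algebra k S := ((algebraMap P S).comp (algebraMap k P)).toAlgebra
    have _ : IsScalarTower k P S := IsScalarTower.of_algebraMap_eq fun r => rfl
    let c : (Σ i, κ i) → S := fun i => algebraMap P S (X i)
    constructor
    · intro h h' hh
      have hmk : ∀ x, Ideal.Quotient.mk I (h x) = Ideal.Quotient.mk I (h' x) := fun x =>
        congrArg (fun φ : B →ₐ[P] S ⧸ I => φ x) hh
      have hX : ∀ (h : B →ₐ[P] S) (i : Σ i, κ i), h (j i.1 (x i.1 i.2)) = c i := by
        intro h i
        have h1 := h.commutes (X i)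
        rw [hPB, aeval_X] at h1
        exact h1
      let hk : B →ₐ[k] S := h.restrictScalars k
      let hk' : B →ₐ[k] S := h'.restrictScalars k
      have h2 : hk = hk' := by
        apply hj.ext
        intro i a
        have h1 := (exists_unique_lift' (hx i) I hI (fun l => c ⟨i, l⟩)).2 (hk.comp (j i))
          (hk'.comp (j i)) (fun l => hX h ⟨i, l⟩) (fun l => hX h' ⟨i, l⟩) (fun y => hmk _)
        exact congrArg (fun φ : A i →ₐ[k] S => φ a) h1
      apply AlgHom.ext
      intro x
      exact congrArg (fun φ : B →ₐ[k] S => φ x) h2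
    · intro g
      have hgX : ∀ (i : Σ i, κ i), g (j i.1 (x i.1 i.2)) = Ideal.Quotient.mk I (c i) := by
        intro i
        have h1 := g.commutes (X i)
        rw [hPB, aeval_X] at h1
        exact h1
      have _ : IsScalarTower k P (S ⧸ I) := IsScalarTower.of_algebraMap_eq fun r => rfl
      let gk : B →ₐ[k] S ⧸ I := g.restrictScalars k
      have h1 : ∀ i, ∃ h : A i →ₐ[k] S, (∀ l, h (x i l) = c ⟨i, l⟩) ∧
          ∀ y, Ideal.Quotient.mk I (h y) = gk (j i y) := fun i =>
        (exists_unique_lift' (hx i) I hI (fun l => c ⟨i, l⟩)).1 (gk.comp (j i))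
          (fun l => hgX ⟨i, l⟩)
      choose h hh hh' using h1
      obtain ⟨H, hH⟩ := hj.lift S h
      have hHC : ∀ q : P, H (algebraMap P B q) = algebraMap P S q := by
        intro q
        rw [hPB]
        induction q using MvPolynomial.induction_on with
        | C r =>
          rw [aeval_C, AlgHom.commutes]
          rfl
        | add p q hp hq => rw [map_add, map_add, hp, hq, map_add]
        | mul_X p i hp =>
          rw [map_mul, map_mul, hp, aeval_X, hH, hh, map_mul]
      refine ⟨{ toRingHom := H.toRingHom, commutes' := hHC }, ?_⟩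
      have h3 : (Ideal.Quotient.mkₐ k I).comp H = gk := by
        apply hj.ext
        intro i a
        rw [AlgHom.comp_apply, hH]
        exact hh' i a
      apply AlgHom.ext
      intro y
      exact congrArg (fun φ : B →ₐ[k] S ⧸ I => φ y) h3
  have hE : Algebra.Etale P B := { formallyEtale := hfe, finitePresentation := hfp }
  exact hE

end et


end Pool.Agent.Helper49.SP.PTL
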